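import Pool.Agent.Lib.MP_391708_nt.XP.SpecMT
import Pool.Agent.Lib.MP_391708_nt.X.MT.BIL

/-!
# THEOREM X+ (MP_391708), part MT, module BIL
-/

set_option autoImplicit false

namespace Pool.Agent.Lib.MP391708.XPM

/-- The statement is that of part X. -/
theorem specBIL : SpecBIL := Pool.Agent.Lib.MP391708.XM.specBIL

end Pool.Agent.Lib.MP391708.XPM
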