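import Pool.Agent.Lib.MP_391708_nt.XP.SpecMT

/-!
# THEOREM X+ (MP_391708), part MT, module BLX (helper21; copy of `X/MT/BLX.lean`): the nontrivial characters contribute little
-/

set_option autoImplicit false

namespace Pool.Agent.Lib.MP391708.XPM

open Finset Filter Topology Pool.Agent.Lib.MP391708.MR
open Pool.Agent.Lib.MP391708.X (ChiG hk Dist Fam rgh VP Ix psi ix1 UOK lc On)
open Pool.Agent.Lib.MP391708.XP
open Pool.Agent.Lib.MP391708.XL (gg VQ VS PS)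
open scoped ComplexConjugate

namespace BLXM

/-! ### Sums over intervals -/

theorem sum_lt (c c' m : ℕ) (F : ℕ → ℂ) :
    ∑ v ∈ (Icc c c').filter (fun v => v < c + m), F v =
      ∑ v ∈ range m, if c + v ∈ Icc c c' then F (c + v) else 0 := by
  rw [← Finset.sum_filter]
  refine Finset.sum_nbij' (fun v => v - c) (fun v => c + v) ?_ ?_ ?_ ?_ ?_
  · intro v hv
    simp only [mem_filter, mem_Icc, mem_range] at hv ⊢
    omega
  · intro v hv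
    simp only [mem_filter, mem_Icc, mem_range] at hv ⊢
    omega
  · intro v hv
    simp only [mem_filter, mem_Icc] at hv
    omega
  · intro v hv
    omega
  · intro v hv
    simp only [mem_filter, mem_Icc] at hv
    congr 1
    omega

theorem sum_all (c c' n : ℕ) (h : (Icc c c').card ≤ n) (F : ℕ → ℂ) :
    ∑ v ∈ Icc c c', F v = ∑ v ∈ range n, if c + v ∈ Icc c c' then F (c + v) else 0 := by
  rw [← sum_lt]
  congr 1
  ext v
  rw [Nat.card_Icc] at h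
  simp only [mem_filter, mem_Icc]
  omega

/-! ### The phase -/

theorem rad_add (p : Par) (y π : Gi) (s s' : ℕ) (hh : 0 < p.h) :
    rad p y π (s + s') = rad p y π s * Real.exp (s' / (2 * p.h)) := by
  unfold rad
  have e1 : (nm y : ℝ) * nm π * Real.exp (((s + s' : ℕ) : ℝ) / p.h) =
      ((nm y : ℝ) * nm π * Real.exp (s / p.h)) * Real.exp (s' / (2 * p.h)) ^ 2 := by
    rw [← Real.exp_nat_mul, mul_assoc _ (Real.exp _), ← Real.exp_add]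
    congr 2
    push_cast
    field_simp
  rw [e1, Real.sqrt_mul (by positivity), Real.sqrt_sq (Real.exp_pos _).le]

theorem kernel (p : Par) (y π : Gi) (s s' : ℕ) (hh : 0 < p.h) (k : ℤ) (b : ℕ) :
    (((1 / rad p y π (s + s') : ℝ) : ℂ) *
      Complex.exp (-(Complex.I * k * b / (rad p y π (s + s') : ℝ)))) =
    ((1 / rad p y π s : ℝ) : ℂ) *
      X.M4.H (k * b / rad p y π s) (Real.exp (-(1 / (2 * p.h)))) s' := by
  have e0 : 1 / rad p y π (s + s') = 1 / rad p y π s * Real.exp (-(1 / (2 * p.h))) ^ s' := by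
    rw [rad_add p y π s s' hh, ← Real.exp_nat_mul, one_div, mul_inv, ← Real.exp_neg, one_div]
    congr 2
    ring
  unfold X.M4.H X.M4.E
  have e1 : -(Complex.I * k * b / (rad p y π (s + s') : ℝ)) = Complex.I *
      ((-(k * b / rad p y π s * Real.exp (-(1 / (2 * p.h))) ^ s') : ℝ) : ℂ) := by
    have e2 : (-(k * b / rad p y π s * Real.exp (-(1 / (2 * p.h))) ^ s') : ℝ) =
        -(k * b * (1 / rad p y π (s + s'))) := by
      rw [e0]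
      ring
    rw [e2]
    push_cast
    ring
  rw [e1, e0]
  push_cast
  ring

/-! ### The trilinear sum -/

/-- extension by zero, shifted -/
noncomputable def xt (I : Finset ℕ) (c : ℕ) (F : ℕ → ℂ) (v : ℕ) : ℂ :=
  if c + v ∈ I then F (c + v) else 0

theorem xt_mul (I : Finset ℕ) (c : ℕ) (F : ℕ → ℂ) (v : ℕ) (z : ℂ) :
    (if c + v ∈ I then F (c + v) * z else 0) = xt I c F v * z := by
  unfold xt
  split_ifs
  · rfl
  · rw [zero_mul]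

theorem TT_eq (p : Par) (y π : Gi) (b : ℕ) (i : Ix) (hh : 0 < p.h) (u₀ u₁ a₀ a₁ b₀ b₁ n : ℕ)
    (h1 : I1 p y = Icc u₀ u₁) (h4 : I4 p = Icc a₀ a₁) (h2 : I2 p = Icc b₀ b₁)
    (c1 : (I1 p y).card ≤ n) (c4 : (I4 p).card ≤ n) (c2 : (I2 p).card ≤ n) :
    TT p y π b i = ((1 / rad p y π (u₀ + a₀ + b₀) : ℝ) : ℂ) *
      ∑ u ∈ range n, ∑ v ∈ range n, ∑ j ∈ range n,
        xt (I1 p y) u₀ (S1 p y i) u * xt (I4 p) a₀ (S4 p i) v * xt (I2 p) b₀ (S2 p i) j *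
          X.M4.H (i.2.2 * b / rad p y π (u₀ + a₀ + b₀)) (Real.exp (-(1 / (2 * p.h)))) (u + v + j) := by
  unfold TT
  rw [h1] at c1 ⊢
  rw [h4] at c4 ⊢
  rw [h2] at c2 ⊢
  rw [sum_all u₀ u₁ n c1, Finset.mul_sum]
  refine Finset.sum_congr rfl fun u _ => ?_
  rw [Finset.mul_sum]
  by_cases hu : u₀ + u ∈ Icc u₀ u₁
  · rw [if_pos hu, sum_all a₀ a₁ n c4]
    refine Finset.sum_congr rfl fun v _ => ?_
    rw [Finset.mul_sum]
    by_cases hv : a₀ + v ∈ Icc a₀ a₁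
    · rw [if_pos hv, sum_all b₀ b₁ n c2]
      refine Finset.sum_congr rfl fun j _ => ?_
      by_cases hj : b₀ + j ∈ Icc b₀ b₁
      · rw [if_pos hj]
        have e0 : u₀ + u + (a₀ + v) + (b₀ + j) = (u₀ + a₀ + b₀) + (u + v + j) := by omega
        rw [e0, kernel p y π _ _ hh]
        unfold xt
        rw [if_pos hu, if_pos hv, if_pos hj]
        ring
      · rw [if_neg hj]
        have : xt (Icc b₀ b₁) b₀ (S2 p i) j = 0 := if_neg hj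
        rw [this]
        ring
    · rw [if_neg hv]
      have : xt (Icc a₀ a₁) a₀ (S4 p i) v = 0 := if_neg hv
      rw [this]
      simp
  · rw [if_neg hu]
    have : xt (Icc u₀ u₁) u₀ (S1 p y i) u = 0 := if_neg hu
    rw [this]
    simp

theorem xt_sq {Ψ U : Finset Ix} (hΨ : Ψ ⊆ U) (I : Finset ℕ) (c : ℕ) (F : Ix → ℕ → ℂ) {A : ℝ}
    (h : ∀ v ∈ I, ∑ i ∈ U, ‖F i v‖ ^ 2 ≤ A ^ 2) (v : ℕ) :
    ∑ i ∈ Ψ, ‖xt I c (F i) v‖ ^ 2 ≤ A ^ 2 := by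
  unfold xt
  by_cases hv : c + v ∈ I
  · simp only [if_pos hv]
    exact (Finset.sum_le_sum_of_subset_of_nonneg hΨ fun i _ _ => sq_nonneg _).trans (h _ hv)
  · simp only [if_neg hv]
    simp only [norm_zero]
    refine (Finset.sum_nonpos fun i _ => by norm_num).trans (sq_nonneg A)

theorem xt_le {U : Finset Ix} (I : Finset ℕ) (c : ℕ) (F : Ix → ℕ → ℂ) {A : ℝ} (hA : 0 ≤ A)
    (h : ∀ v ∈ I, ∑ i ∈ U, ‖F i v‖ ^ 2 ≤ A ^ 2) (v : ℕ) (i : Ix) (hi : i ∈ U) :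
    ‖xt I c (F i) v‖ ≤ A := by
  unfold xt
  by_cases hv : c + v ∈ I
  · rw [if_pos hv]
    have h1 := (Finset.single_le_sum (f := fun i => ‖F i (c + v)‖ ^ 2) (fun _ _ => sq_nonneg _)
      hi).trans (h _ hv)
    exact abs_le_of_sq_le_sq' h1 hA |>.2
  · rw [if_neg hv, norm_zero]
    exact hA

theorem VQ_nonneg (q : ℕ) (b : ℤ) (S : Finset ℕ) : 0 ≤ VQ q b S := by
  unfold VQ
  refine Finset.prod_nonneg fun p _ => ?_
  unfold XL.gb
  rw [sub_nonneg]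
  refine div_le_one_of_le₀ ?_ (Nat.cast_nonneg _)
  exact_mod_cast (Finset.card_filter_le _ _).trans (by rw [card_range])

/-! ### Numerical facts -/

theorem beta_facts {h : ℝ} (hh : 100 ≤ h) :
    Real.exp (-(1 / (2 * h))) < 1 ∧ 1 - Real.exp (-(1 / (2 * h))) ≤ 1 / (2 * h) ∧
    1 ≤ 8 * (⌊h⌋₊ : ℝ) * (1 - Real.exp (-(1 / (2 * h)))) ∧
    1 / 2 ≤ Real.exp (-(1 / (2 * h))) ^ ⌊h⌋₊ ∧ h / 2 ≤ (⌊h⌋₊ : ℝ) ∧ (⌊h⌋₊ : ℝ) ≤ h := by
  have h0 : 0 < h := by linarith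
  set t : ℝ := 1 / (2 * h) with ht
  have ht0 : 0 < t := by positivity
  have ht1 : t * (2 * h) = 1 := by
    rw [ht]
    field_simp
  have hn1 : h - 1 < (⌊h⌋₊ : ℝ) := Nat.sub_one_lt_floor h
  have hn2 : (⌊h⌋₊ : ℝ) ≤ h := Nat.floor_le h0.le
  have e1 : Real.exp (-t) < 1 := by
    rw [Real.exp_lt_one_iff]
    linarith
  have e2 : 1 - t ≤ Real.exp (-t) := by
    have := Real.add_one_le_exp (-t)
    linarith
  have e3 : Real.exp (-t) ≤ 1 - t / 2 := by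
    have h1 := Real.add_one_le_exp t
    have h2 : Real.exp (-t) * Real.exp t = 1 := by
      rw [← Real.exp_add]
      simp
    have h3 : Real.exp (-t) * (1 + t) ≤ 1 := by
      rw [← h2]
      exact mul_le_mul_of_nonneg_left (by linarith) (Real.exp_pos _).le
    have ht2 : t ≤ 1 := by
      nlinarith
    nlinarith [Real.exp_pos (-t)]
  refine ⟨e1, by linarith, ?_, ?_, by linarith, hn2⟩
  · have h1 : t / 2 ≤ 1 - Real.exp (-t) := by linarith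
    have h2 : (0 : ℝ) ≤ 8 * (⌊h⌋₊ : ℝ) := by positivity
    have h3 : 8 * (⌊h⌋₊ : ℝ) * (t / 2) ≤ 8 * (⌊h⌋₊ : ℝ) * (1 - Real.exp (-t)) :=
      mul_le_mul_of_nonneg_left h1 h2
    refine le_trans ?_ h3
    have h4 : (h - 1) * t ≤ (⌊h⌋₊ : ℝ) * t := mul_le_mul_of_nonneg_right hn1.le ht0.le
    nlinarith
  · rw [← Real.exp_nat_mul]
    have h1 : -(1 / 2 : ℝ) ≤ (⌊h⌋₊ : ℝ) * -t := by
      have h4 : (⌊h⌋₊ : ℝ) * t ≤ h * t := mul_le_mul_of_nonneg_right hn2 ht0.le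
      nlinarith
    have h2 := Real.add_one_le_exp (-(1 / 2 : ℝ))
    have h3 := Real.exp_le_exp.2 h1
    linarith

theorem T0_exists {D δ : ℝ} (hδ : 0 < δ) : ∃ T₀ : ℝ, 1 ≤ T₀ ∧
    D * T₀ ^ (-(1 / 4) : ℝ) ≤ δ := by
  set z : ℝ := max 1 (D / δ) with hz
  have hz1 : 1 ≤ z := le_max_left _ _
  have hz0 : 0 < z := by linarith
  refine ⟨z ^ 4, one_le_pow₀ hz1, ?_⟩
  have h1 : (z ^ 4) ^ (-(1 / 4) : ℝ) = z⁻¹ := by
    rw [← Real.rpow_natCast z 4, ← Real.rpow_mul hz0.le]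
    norm_num
    rw [Real.rpow_neg_one]
  rw [h1]
  have h2 : D / δ ≤ z := le_max_right _ _
  rw [div_le_iff₀ hδ] at h2
  rw [← div_eq_mul_inv, div_le_iff₀ hz0]
  linarith

/-! ### The bound for one `π` -/

theorem core (hBIL : SpecBIL) (p : Par) (U Ψ : Finset Ix) (b : ℕ) (y π : Gi)
    (hΨ : ∀ i ∈ Ψ, i ∈ U ∧ i ≠ ix1) (hs : Siz p U b y) (hπ : π ∈ GP p.P (2 * p.P)) (C3 : ℝ)
    (hC3 : 0 < C3)
    (h1 : ∀ u ∈ I1 p y, ∑ i ∈ U, ‖S1 p y i u‖ ^ 2 ≤ (C3 * (p.K / nm y) / (p.h * Real.log p.N)) ^ 2)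
    (h4 : ∀ v ∈ I4 p, ∑ i ∈ U, ‖S4 p i v‖ ^ 2 ≤ (C3 * p.M4 / (p.h * Real.log p.N)) ^ 2)
    (h2 : ∀ v ∈ I2 p, ∑ i ∈ U, ‖S2 p i v‖ ^ 2 ≤ (C3 * p.M2 / (p.h * Real.log p.N)) ^ 2)
    (δ' : ℝ) (hδ' : 0 ≤ δ')
    (hPSM : ∀ i ∈ U, i ≠ ix1 → ∀ m : ℕ,
      ‖∑ v ∈ (I4 p).filter (fun v => v < m), S4 p i v‖ ≤ δ' * p.M4 / Real.log p.N)
    (hF : ∀ i ∈ U, |(i.2.2 : ℝ)| * b ≤ 1 / 4 * p.h * p.N) (hVS : 0 < VS b (PS p.w))
    (hG : ∀ i ∈ Ψ, ‖GG p i b‖ ≤ VS b (PS p.w)) (T₀ : ℝ) (hT : 1 ≤ T₀) :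
    ∑ i ∈ Ψ, ‖GG p i b * TT p y π b i‖ ≤
      8 * C3 ^ 3 * (3 * T₀ * (2 * δ' / C3) + 256 * T₀ ^ (-(1 / 4) : ℝ)) *
        (VS b (PS p.w) * Z0 p y) := by
  have hh := hs.h1
  have hh0 : 0 < p.h := by linarith
  have hN0 : 0 < p.N := by linarith [hs.N1]
  have hl0 : 0 < Real.log p.N := by linarith [hs.l1]
  have hK0 : 0 < p.K / nm y := lt_of_lt_of_le (Real.rpow_pos_of_pos hN0 _) hs.K1
  have hM4 : 0 < p.M4 := lt_of_lt_of_le (Real.rpow_pos_of_pos hN0 _) hs.M41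
  have hM2 : 0 < p.M2 := lt_of_lt_of_le (Real.rpow_pos_of_pos hN0 _) hs.M21
  obtain ⟨hβ1, hβ2, hβ3, hβ4, hn1, hn2⟩ := beta_facts hh
  have hmem : ∀ M : ℝ, 0 < M → ⌊p.h * Real.log M⌋₊ ∈ VV p.h M (2 * M) := by
    intro M hM
    unfold VV
    rw [mem_Icc]
    exact ⟨le_rfl, Nat.floor_le_floor (mul_le_mul_of_nonneg_left
      (Real.log_le_log hM (by linarith)) hh0.le)⟩
  have c1 : (I1 p y).card ≤ ⌊p.h⌋₊ := Nat.le_floor hs.c1
  have c4 : (I4 p).card ≤ ⌊p.h⌋₊ := Nat.le_floor hs.c4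
  have c2 : (I2 p).card ≤ ⌊p.h⌋₊ := Nat.le_floor hs.c2
  obtain ⟨hr1, -⟩ := hs.ra π hπ _ (hmem _ hK0) _ (hmem _ hM4) _ (hmem _ hM2)
  have hTT := fun i => TT_eq p y π b i hh0 _ _ _ _ _ _ ⌊p.h⌋₊ (rfl : I1 p y = Icc _ _)
    (rfl : I4 p = Icc _ _) (rfl : I2 p = Icc _ _) c1 c4 c2
  obtain ⟨r₀, hr₀⟩ : ∃ r₀, r₀ = rad p y π (⌊p.h * Real.log (p.K / nm y)⌋₊ +
    ⌊p.h * Real.log p.M4⌋₊ + ⌊p.h * Real.log p.M2⌋₊) := ⟨_, rfl⟩
  rw [← hr₀] at hr1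
  simp only [← hr₀] at hTT
  have hr0 : 0 < r₀ := by linarith
  obtain ⟨n, hn⟩ : ∃ n, n = ⌊p.h⌋₊ := ⟨_, rfl⟩
  rw [← hn] at hβ3 hβ4 hn1 hn2
  simp only [← hn] at hTT
  obtain ⟨β, hβ⟩ : ∃ β, β = Real.exp (-(1 / (2 * p.h))) := ⟨_, rfl⟩
  rw [← hβ] at hβ1 hβ2 hβ3 hβ4
  simp only [← hβ] at hTT
  have hβ0 : 0 < β := by
    rw [hβ]
    exact Real.exp_pos _
  have hn0 : 1 ≤ n := by
    have h5 : (1 : ℝ) ≤ n := by linarith
    exact_mod_cast h5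
  have hΨU : Ψ ⊆ U := fun i hi => (hΨ i hi).1
  have hB := hBIL 8 (1 / 2) (by norm_num) (by norm_num) (by norm_num) β n hβ0 hβ1 hn0 hβ3 hβ4 Ix Ψ
    (fun i => i.2.2 * b / r₀) (fun i => GG p i b / (VS b (PS p.w) : ℝ))
    (fun i => xt (I1 p y) ⌊p.h * Real.log (p.K / nm y)⌋₊ (S1 p y i))
    (fun i => xt (I4 p) ⌊p.h * Real.log p.M4⌋₊ (S4 p i))
    (fun i => xt (I2 p) ⌊p.h * Real.log p.M2⌋₊ (S2 p i))
    (C3 * (p.K / nm y) / (p.h * Real.log p.N)) (C3 * p.M4 / (p.h * Real.log p.N))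
    (C3 * p.M2 / (p.h * Real.log p.N)) (2 * δ' / C3) T₀ (by positivity) (by positivity)
    (by positivity) (by positivity) hT ?_ ?_ ?_ ?_ ?_ ?_
  · have hT0 : 0 ≤ T₀ ^ (-(1 / 4) : ℝ) := Real.rpow_nonneg (by linarith) _
    have e8 : (8 : ℝ) * (8 / (1 / 2) ^ 2) = 256 := by norm_num
    rw [e8] at hB
    have hκ : 0 ≤ 3 * T₀ * (2 * δ' / C3) + 256 * T₀ ^ (-(1 / 4) : ℝ) := by positivity
    have hstep : ∑ i ∈ Ψ, ‖GG p i b * TT p y π b i‖ = VS b (PS p.w) / r₀ *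
        ∑ i ∈ Ψ, ‖GG p i b / (VS b (PS p.w) : ℝ) * ∑ u ∈ range n, ∑ v ∈ range n, ∑ j ∈ range n,
          xt (I1 p y) ⌊p.h * Real.log (p.K / nm y)⌋₊ (S1 p y i) u *
          xt (I4 p) ⌊p.h * Real.log p.M4⌋₊ (S4 p i) v *
          xt (I2 p) ⌊p.h * Real.log p.M2⌋₊ (S2 p i) j *
            X.M4.H (i.2.2 * b / r₀) β (u + v + j)‖ := by
      rw [Finset.mul_sum]
      refine Finset.sum_congr rfl fun i _ => ?_
      rw [hTT i, norm_mul, norm_mul, norm_mul, norm_div, Complex.norm_real, Complex.norm_real,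
        Real.norm_eq_abs, Real.norm_eq_abs, abs_of_pos hVS, abs_of_pos (by positivity : 0 < 1 / r₀)]
      field_simp
    rw [hstep]
    refine (mul_le_mul_of_nonneg_left hB (by positivity)).trans ?_
    have hn3 : (n : ℝ) ^ 3 ≤ p.h ^ 3 := pow_le_pow_left₀ (Nat.cast_nonneg _) hn2 3
    have hinv : VS b (PS p.w) / r₀ ≤ VS b (PS p.w) * (8 / p.N) := by
      rw [div_eq_mul_inv]
      refine mul_le_mul_of_nonneg_left ?_ hVS.le
      rw [← one_div, div_le_div_iff₀ hr0 hN0]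
      linarith
    calc _ ≤ VS b (PS p.w) * (8 / p.N) *
          ((3 * T₀ * (2 * δ' / C3) + 256 * T₀ ^ (-(1 / 4) : ℝ)) * p.h ^ 3 *
            (C3 * (p.K / nm y) / (p.h * Real.log p.N) * (C3 * p.M4 / (p.h * Real.log p.N)) *
              (C3 * p.M2 / (p.h * Real.log p.N)))) := by
          refine mul_le_mul hinv ?_ (by positivity) (by positivity)
          gcongr
      _ = _ := by
          unfold Z0
          field_simp
  · intro i hi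
    have hk := hF i (hΨU hi)
    rw [abs_div, abs_mul, Nat.abs_cast, abs_of_pos hr0]
    have h5 : |(i.2.2 : ℝ)| * b / r₀ ≤ 1 / 4 * p.h * p.N / (p.N / 8) :=
      div_le_div₀ (by positivity) hk (by positivity) hr1
    have h6 : 1 / 4 * p.h * p.N / (p.N / 8) = 2 * p.h := by
      field_simp
      norm_num
    rw [h6] at h5
    refine (mul_le_mul h5 hβ2 (by linarith) (by positivity)).trans ?_
    rw [mul_one_div_cancel]
    positivity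
  · intro i hi
    rw [norm_div, Complex.norm_real, Real.norm_eq_abs, abs_of_pos hVS]
    exact div_le_one_of_le₀ (hG i hi) hVS.le
  · intro u _
    exact xt_sq hΨU _ _ _ h1 u
  · intro u _
    exact xt_sq hΨU _ _ _ h2 u
  · intro i hi v _
    exact xt_le _ _ _ (by positivity) h4 v i (hΨU hi)
  · intro i hi m _
    have h5 := hPSM i (hΨU hi) (hΨ i hi).2 (⌊p.h * Real.log p.M4⌋₊ + m)
    have h6 : ∑ v ∈ (I4 p).filter (fun v => v < ⌊p.h * Real.log p.M4⌋₊ + m), S4 p i v =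
        ∑ v ∈ range m, xt (I4 p) ⌊p.h * Real.log p.M4⌋₊ (S4 p i) v := by
      unfold I4 VV
      rw [sum_lt]
      rfl
    rw [h6] at h5
    refine h5.trans ?_
    have e1 : 2 * δ' / C3 * (C3 * p.M4 / (p.h * Real.log p.N)) * n =
        δ' * p.M4 / Real.log p.N * (2 * n / p.h) := by
      field_simp
    rw [e1]
    refine le_mul_of_one_le_right (by positivity) ?_
    rw [le_div_iff₀ hh0]
    linarith

end BLXM

open BLXM

open scoped Classical in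
theorem specBLX (hBIL : SpecBIL) (hCE3 : SpecCE3) (hPSM : SpecPSM) (hSIZ : SpecSIZ)
    (hFRQ : SpecFRQ) (hLSM : XL.SpecLSM) : SpecBLX := by
  intro δ hδ
  obtain ⟨C3, hC3, hce⟩ := hCE3
  obtain ⟨-, -, -, hLC, -, c0, hc0, hLE⟩ := hLSM
  obtain ⟨T₀, hT1, hT2⟩ := T0_exists (D := 2048 * C3 ^ 3) (δ := δ / 2) (by positivity)
  have hT0 : 0 < T₀ := by linarith
  obtain ⟨δ', hδ'⟩ : ∃ δ' : ℝ, δ' = δ / (96 * T₀ * C3 ^ 2) := ⟨_, rfl⟩
  have hδ0 : 0 < δ' := by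
    rw [hδ']
    positivity
  refine ((((hce.and (hPSM δ' hδ0)).and hSIZ).and (hFRQ (1 / 4) (by norm_num))).and EV.uok).mono ?_
  rintro p B U b y ⟨⟨⟨⟨⟨h1, h4, h2⟩, h3⟩, hs⟩, hf⟩, -, hU⟩ π hπ
  have hw := hs.w1
  have hVS : 0 < VS b (PS p.w) := (hLE b p.w hw).2.1
  have hN0 : 0 < p.N := by linarith [hs.N1]
  have hl0 : 0 < Real.log p.N := by linarith [hs.l1]
  have hK0 : 0 < p.K / nm y := lt_of_lt_of_le (Real.rpow_pos_of_pos hN0 _) hs.K1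
  have hM4 : 0 < p.M4 := lt_of_lt_of_le (Real.rpow_pos_of_pos hN0 _) hs.M41
  have hM2 : 0 < p.M2 := lt_of_lt_of_le (Real.rpow_pos_of_pos hN0 _) hs.M21
  have hZ : 0 ≤ Z0 p y := by
    unfold Z0
    positivity
  have key := core hBIL p U (U.filter (fun i => i ≠ ix1)) b y π
    (fun i hi => mem_filter.1 hi) hs hπ C3 hC3 h1 h4 h2 δ' hδ0.le h3 (fun i hi => (hf i hi).1) hVS
    (fun i hi => by
      obtain ⟨hi1, hi2⟩ := mem_filter.1 hi
      obtain ⟨g1, g2, -, -⟩ := hU i hi1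
      have h5 := (hLC i.1 i.2.1 b p.w (by omega) (by linarith) g2).1
      unfold GG
      rw [norm_mul, Complex.norm_real, Real.norm_eq_abs, abs_of_nonneg (VQ_nonneg _ _ _), mul_comm]
      exact h5) T₀ hT1
  refine key.trans ?_
  rw [mul_assoc δ]
  refine mul_le_mul_of_nonneg_right ?_ (mul_nonneg hVS.le hZ)
  have e1 : 8 * C3 ^ 3 * (3 * T₀ * (2 * δ' / C3) + 256 * T₀ ^ (-(1 / 4) : ℝ)) =
      48 * T₀ * C3 ^ 2 * δ' + 2048 * C3 ^ 3 * T₀ ^ (-(1 / 4) : ℝ) := by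
    field_simp
    ring
  have e2 : 48 * T₀ * C3 ^ 2 * δ' = δ / 2 := by
    rw [hδ']
    field_simp
    norm_num
  rw [e1, e2]
  linarith

end Pool.Agent.Lib.MP391708.XPM
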