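import Pool.Agent.Lib.MP_391708_nt.XP.SpecMT

/-!
# THEOREM X+ (MP_391708), part MT, module CCB: the coefficients of the model
-/

set_option autoImplicit false

namespace Pool.Agent.Lib.MP391708.XPM

open Finset Filter Topology Pool.Agent.Lib.MP391708.MR
open Pool.Agent.Lib.MP391708.X (ChiG hk Dist Fam rgh VP Ix psi ix1 UOK lc On)
open Pool.Agent.Lib.MP391708.XP
open Pool.Agent.Lib.MP391708.XL (gg VQ VS PS)
open scoped ComplexConjugate

namespace CCBM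

lemma ev_pos : EV (fun p _ _ _ _ => 0 < p.h ∧ 0 < Real.log p.N ∧ 0 ≤ p.M4 ∧ 0 ≤ p.M2) := by
  intro cw aU aQ aF _ _ _ _ _
  refine ⟨0, 1, one_pos, fun ch _ δ _ _ => ⟨0, fun cP _ => ⟨0, fun cT _ => ⟨0, fun cB _ => ?_⟩⟩⟩⟩
  filter_upwards [eventually_gt_atTop (1 : ℝ)] with N hN T P M B U b y hc
  have hl : 0 < Real.log N := Real.log_pos hN
  have hN0 : 0 < N := by linarith
  have hM : 0 ≤ M := (Real.rpow_nonneg hN0.le _).trans hc.box.M1
  have hP : 0 ≤ P := (Real.rpow_nonneg hl.le _).trans hc.box.P1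
  have hT : 0 ≤ T := (mul_nonneg hP (Real.rpow_nonneg hl.le _)).trans hc.box.T1
  refine ⟨Real.rpow_pos_of_pos hl _, hl, hM, ?_⟩
  exact div_nonneg (mul_nonneg hN0.le hT) (mul_nonneg (mul_nonneg (by norm_num) hP) hM)

lemma cs {ι : Type} (U : Finset ι) (f g : ι → ℝ) {A B : ℝ} (hA : 0 ≤ A) (hB : 0 ≤ B)
    (hf : ∑ i ∈ U, f i ^ 2 ≤ A ^ 2) (hg : ∑ i ∈ U, g i ^ 2 ≤ B ^ 2) :
    ∑ i ∈ U, f i * g i ≤ A * B := by
  have h1 : (∑ i ∈ U, f i * g i) ^ 2 ≤ (A * B) ^ 2 := by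
    rw [mul_pow]
    exact (sum_mul_sq_le_sq_mul_sq U f g).trans
      (mul_le_mul hf hg (sum_nonneg fun i _ => sq_nonneg _) (sq_nonneg _))
  exact (le_abs_self _).trans (abs_le_of_sq_le_sq h1 (mul_nonneg hA hB))

lemma RR_ge {r h e V : ℝ} (hh : 0 < h) (he : 0 < e) (hV : 0 < V)
    (hr : |r * h / (Real.pi * e * V) - 1| ≤ 1 / 2) : 1 * (e * V) / h ≤ r := by
  have h1 := (abs_le.1 hr).1
  have hpi : 3 < Real.pi := Real.pi_gt_three
  have h2 : 1 / 2 ≤ r * h / (Real.pi * e * V) := by linarith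
  rw [le_div_iff₀ (by positivity)] at h2
  rw [div_le_iff₀ hh]
  have h3 : 0 < e * V := mul_pos he hV
  nlinarith

end CCBM

/-- **Module CCB**. -/
theorem specCCB (hCE3 : SpecCE3) (hRRA : SpecRRA) : SpecCCB := by
  obtain ⟨C, hC, h1⟩ := hCE3
  refine ⟨C ^ 2, by positivity, ?_⟩
  refine ((h1.and (hRRA (1 / 2) (by norm_num))).and CCBM.ev_pos).mono ?_
  rintro p B U b y ⟨⟨⟨-, h4, h2⟩, hVP, -, hRR⟩, hh, hl, hM4, hM2⟩ v4 hv4 v2 hv2
  have hA : 0 ≤ C * p.M4 / (p.h * Real.log p.N) := by positivity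
  have hB : 0 ≤ C * p.M2 / (p.h * Real.log p.N) := by positivity
  have key := CCBM.cs U (fun i => ‖S4 p i v4‖) (fun i => ‖S2 p i v2‖) hA hB (h4 v4 hv4) (h2 v2 hv2)
  have e1 : C * p.M4 / (p.h * Real.log p.N) * (C * p.M2 / (p.h * Real.log p.N)) =
      C ^ 2 * p.M4 * p.M2 / (p.h * Real.log p.N) ^ 2 := by
    field_simp
  rw [e1] at key
  refine ⟨key, ?_⟩
  obtain ⟨E, hE⟩ : ∃ E : ℝ, E = Real.exp (((v4 + v2 : ℕ) : ℝ) / p.h) := ⟨_, rfl⟩
  have hE0 : 0 < E := by rw [hE]; exact Real.exp_pos _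
  have hR := hRR v4 hv4 v2 hv2
  rw [← hE] at hR ⊢
  have hR' := CCBM.RR_ge hh hE0 hVP hR
  rw [one_mul] at hR'
  have hd : 0 < E * VP p.w / p.h := div_pos (mul_pos hE0 hVP) hh
  have hR0 : 0 < RR p (v4 + v2) := lt_of_lt_of_le hd hR'
  calc ∑ i ∈ U, ‖cc p i v4 v2‖
      ≤ ∑ i ∈ U, ‖S4 p i v4‖ * ‖S2 p i v2‖ * (p.h / (E * VP p.w)) := by
        refine sum_le_sum fun i _ => ?_
        unfold cc
        rw [norm_div, norm_mul, Complex.norm_real, Real.norm_eq_abs, abs_of_pos hR0,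
          div_eq_mul_inv]
        refine mul_le_mul_of_nonneg_left ?_ (by positivity)
        rw [← inv_div]
        exact inv_anti₀ hd hR'
    _ = (∑ i ∈ U, ‖S4 p i v4‖ * ‖S2 p i v2‖) * (p.h / (E * VP p.w)) := by rw [sum_mul]
    _ ≤ C ^ 2 * p.M4 * p.M2 / (p.h * Real.log p.N) ^ 2 * (p.h / (E * VP p.w)) :=
        mul_le_mul_of_nonneg_right key (by positivity)
    _ = C ^ 2 * p.M4 * p.M2 / (p.h * Real.log p.N ^ 2 * (E * VP p.w)) := by
        field_simp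

end Pool.Agent.Lib.MP391708.XPM
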