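import Pool.Agent.Lib.MP_391708_nt.XP.SpecMT
import Pool.Agent.Lib.MP_391708_nt.XP.CEL

/-!
# THEOREM X+ (MP_391708), part MT, module CE3: thin Halász–Montgomery for the three cells (helper45)
-/

set_option autoImplicit false

namespace Pool.Agent.Lib.MP391708.XPM

open Finset Filter Topology Pool.Agent.Lib.MP391708.MR
open Pool.Agent.Lib.MP391708.X (ChiG hk Dist Fam rgh VP Ix psi ix1 UOK lc On)
open Pool.Agent.Lib.MP391708.XP
open scoped ComplexConjugate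

namespace CE3M

/-- `K / N(y)` is large. -/
theorem ev_K (cP : ℝ) : ∀ᶠ N : ℝ in atTop,
    N ^ (1 / 3 : ℝ) * (N ^ (1 / 100 : ℝ) * Real.log N ^ (cP / 2)) ≤ N := by
  have h1 : Tendsto (fun N : ℝ => Real.log N ^ (cP / 2) / N ^ (6 / 10 : ℝ)) atTop (𝓝 0) :=
    (isLittleO_log_rpow_rpow_atTop (cP / 2)
      (by norm_num : (0 : ℝ) < 6 / 10)).tendsto_div_nhds_zero
  have h2 : ∀ᶠ N : ℝ in atTop, Real.log N ^ (cP / 2) / N ^ (6 / 10 : ℝ) < 1 :=
    h1.eventually_lt_const (by norm_num)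
  filter_upwards [h2, eventually_gt_atTop (1 : ℝ)] with N hN hN1
  have hN0 : 0 < N := by linarith
  have hp : 0 < N ^ (6 / 10 : ℝ) := Real.rpow_pos_of_pos hN0 _
  rw [div_lt_one hp] at hN
  calc N ^ (1 / 3 : ℝ) * (N ^ (1 / 100 : ℝ) * Real.log N ^ (cP / 2))
      ≤ N ^ (1 / 3 : ℝ) * (N ^ (1 / 100 : ℝ) * N ^ (6 / 10 : ℝ)) := by
        refine mul_le_mul_of_nonneg_left ?_ (Real.rpow_nonneg hN0.le _)
        exact mul_le_mul_of_nonneg_left hN.le (Real.rpow_nonneg hN0.le _)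
    _ = N ^ (1 / 3 + (1 / 100 + 6 / 10) : ℝ) := by
        rw [← Real.rpow_add hN0, ← Real.rpow_add hN0]
    _ ≤ N ^ (1 : ℝ) := Real.rpow_le_rpow_of_exponent_le hN1.le (by norm_num)
    _ = N := Real.rpow_one _

/-- `M₂` is large. -/
theorem ev_M : ∀ᶠ N : ℝ in atTop, 16 * (N ^ (1 / 3 : ℝ) * N ^ (45 / 100 : ℝ)) ≤ N := by
  have h1 : ∀ᶠ N : ℝ in atTop, (16 : ℝ) ≤ N ^ (1 / 5 : ℝ) :=
    (tendsto_rpow_atTop (by norm_num : (0 : ℝ) < 1 / 5)).eventually_ge_atTop 16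
  filter_upwards [h1, eventually_gt_atTop (1 : ℝ)] with N hN hN1
  have hN0 : 0 < N := by linarith
  calc 16 * (N ^ (1 / 3 : ℝ) * N ^ (45 / 100 : ℝ))
      ≤ N ^ (1 / 5 : ℝ) * (N ^ (1 / 3 : ℝ) * N ^ (45 / 100 : ℝ)) :=
        mul_le_mul_of_nonneg_right hN (by positivity)
    _ = N ^ (1 / 5 + (1 / 3 + 45 / 100) : ℝ) := by
        rw [← Real.rpow_add hN0, ← Real.rpow_add hN0]
    _ ≤ N ^ (1 : ℝ) := Real.rpow_le_rpow_of_exponent_le hN1.le (by norm_num)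
    _ = N := Real.rpow_one _

theorem sqb {C D x y z : ℝ} (hC : 0 < C) (hD : C + 1 ≤ D) (h : x ≤ C * (y / z) ^ 2) :
    x ≤ (D * y / z) ^ 2 := by
  have e : (D * y / z) ^ 2 = D ^ 2 * (y / z) ^ 2 := by ring
  rw [e]
  refine h.trans (mul_le_mul_of_nonneg_right ?_ (sq_nonneg _))
  nlinarith

end CE3M

/-- **CE3**: thin Halász–Montgomery for the cells of `z₁`, `π₄`, `π₂`, in a context. -/
theorem specCE3 : SpecCE3 := by
  obtain ⟨C1, hC1, h1⟩ := Pool.Agent.Lib.MP391708.X.ce2_celb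
  obtain ⟨C2, hC2, h2⟩ := Pool.Agent.Lib.MP391708.XP.CE.ce_cels
  refine ⟨C1 + C2 + 1, by positivity, ?_⟩
  intro cw aU aQ aF _ _ _ _ _
  refine ⟨1, 1 / 100, by norm_num, fun ch hch δ hδ hδ2 => ⟨0, fun cP hcP => ⟨0, fun cT hcT =>
    ⟨aF, fun cB hcB => ?_⟩⟩⟩⟩
  filter_upwards [h1 ch aQ aU hch, h2 ch cw aQ aU hch, CE3M.ev_K cP, CE3M.ev_M,
    eventually_ge_atTop (Real.exp 1)] with N g1 g2 g3 g4 hN T P M B U b y hc
  have hN1 : 1 < N :=
    lt_of_lt_of_le (by have := Real.add_one_lt_exp (one_ne_zero : (1 : ℝ) ≠ 0); linarith) hN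
  have hN0 : 0 < N := by linarith
  have hl1 : 1 ≤ Real.log N := by
    rw [Real.le_log_iff_exp_le hN0]
    exact hN
  have hl : 0 < Real.log N := by linarith
  have hP1 : 1 ≤ P := (Real.one_le_rpow hl1 hcP).trans hc.box.P1
  have hT1 : P ≤ T := by
    refine le_trans ?_ hc.box.T1
    have := Real.one_le_rpow hl1 hcT
    nlinarith
  have hT0 : 0 < T := by linarith
  have hB : Real.log N ^ aF ≤ B := by
    refine le_trans ?_ hc.box.B1
    have h3 : Real.log N ^ aF ≤ Real.log N ^ cB := Real.rpow_le_rpow_of_exponent_le hl1 hcB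
    have h4 : 0 < Real.log N ^ cB := Real.rpow_pos_of_pos hl _
    have h5 : 1 ≤ T * P := by nlinarith
    nlinarith
  have hB0 : 0 < B := lt_of_lt_of_le (Real.rpow_pos_of_pos hl _) hB
  have hF : Real.log N ^ aF * (N / B) ≤ N := by
    rw [mul_div_assoc', div_le_iff₀ hB0, mul_comm]
    exact mul_le_mul_of_nonneg_left hB hN0.le
  have hF2 : Real.log N ^ aF * (N / B) ≤ N ^ 2 := by
    refine hF.trans ?_
    nlinarith
  have hy0 : 0 < (nm y : ℝ) := by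
    have hy : y ≠ 0 := prim_ne_zero hc.y1
    exact nm_posR hy
  have hTN : T ≤ N ^ (1 / 100 : ℝ) :=
    hc.box.T2.trans (Real.rpow_le_rpow_of_exponent_le hN1.le hδ2)
  have hM1 : N ^ (1 / 3 : ℝ) ≤ (par N T P M ch cw).K / nm y := by
    show N ^ (1 / 3 : ℝ) ≤ N / T / nm y
    rw [div_div, le_div_iff₀ (by positivity)]
    refine le_trans ?_ g3
    refine mul_le_mul_of_nonneg_left ?_ (Real.rpow_nonneg hN0.le _)
    exact mul_le_mul hTN hc.y2 hy0.le (Real.rpow_nonneg hN0.le _)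
  have hM4 : N ^ (1 / 3 : ℝ) ≤ M :=
    (Real.rpow_le_rpow_of_exponent_le hN1.le (by norm_num)).trans hc.box.M1
  have hM0 : 0 < M := lt_of_lt_of_le (Real.rpow_pos_of_pos hN0 _) hM4
  have hM2 : N ^ (1 / 3 : ℝ) ≤ (par N T P M ch cw).M2 := by
    show N ^ (1 / 3 : ℝ) ≤ N * T / (16 * P * M)
    rw [le_div_iff₀ (by positivity)]
    calc N ^ (1 / 3 : ℝ) * (16 * P * M)
        = 16 * (N ^ (1 / 3 : ℝ) * M) * P := by ring
      _ ≤ 16 * (N ^ (1 / 3 : ℝ) * N ^ (45 / 100 : ℝ)) * P := by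
          refine mul_le_mul_of_nonneg_right ?_ (by linarith)
          refine mul_le_mul_of_nonneg_left ?_ (by norm_num)
          exact mul_le_mul_of_nonneg_left hc.box.M2 (Real.rpow_nonneg hN0.le _)
      _ ≤ N * T := mul_le_mul g4 hT1 (by linarith) hN0.le
  refine ⟨fun u _ => ?_, fun v _ => ?_, fun v _ => ?_⟩
  · exact CE3M.sqb hC1 (by linarith)
      (g1 _ U hF2 hc.ok ((par N T P M ch cw).K / nm y) u hM1).2.1
  · exact CE3M.sqb hC2 (by linarith) (g2 T P M hM4 hM2 _ U hF2 hc.ok v).1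
  · exact CE3M.sqb hC2 (by linarith) (g2 T P M hM4 hM2 _ U hF2 hc.ok v).2

end Pool.Agent.Lib.MP391708.XPM
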