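import Pool.Agent.Lib.MP_391708_nt.XP.SpecMT

/-!
# MP_391708, Theorem X+, part MT, module EXC: exchange of the sums (helper77)
-/

set_option autoImplicit false

namespace Pool.Agent.Lib.MP391708.XPM

open Finset Filter Topology Pool.Agent.Lib.MP391708.MR
open Pool.Agent.Lib.MP391708.X (ChiG hk Dist Fam rgh VP Ix psi ix1 UOK lc On)
open Pool.Agent.Lib.MP391708.XP
open scoped ComplexConjugate

namespace EXCM

theorem inner (p : Par) (U : Finset Ix) (S : Finset Gi) :
    ∑ z ∈ S, Kap p U z = ∑ v4 ∈ I4 p, ∑ v2 ∈ I2 p, ∑ i ∈ U, cc p i v4 v2 *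
      ∑ z ∈ S, (open scoped Classical in
        if z ∈ lc p.h (v4 + v2) ∧ rgh p.w z then conj (psi i z) else 0) := by
  classical
  unfold Kap
  rw [Finset.sum_comm]
  refine Finset.sum_congr rfl fun v4 _ => ?_
  rw [Finset.sum_comm]
  refine Finset.sum_congr rfl fun v2 _ => ?_
  simp only [Finset.mul_sum]
  rw [Finset.sum_comm]
  refine Finset.sum_congr rfl fun z _ => ?_
  unfold kap
  by_cases h : z ∈ lc p.h (v4 + v2) ∧ rgh p.w z
  · simp only [if_pos h]
  · simp only [if_neg h, mul_zero, Finset.sum_const_zero]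

end EXCM

/-- **EXC**. -/
theorem specEXC : SpecEXC := by
  intro p U b y
  unfold sy ls
  have e : 2 * p.K / (nm y : ℝ) = 2 * (p.K / nm y) := by ring
  rw [e, Finset.sum_comm]
  refine Finset.sum_congr rfl fun π _ => ?_
  refine Finset.sum_congr rfl fun z _ => ?_
  rw [EXCM.inner p U]
  rfl

end Pool.Agent.Lib.MP391708.XPM
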