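import Pool.Agent.Lib.MP_391708_nt.XP.SpecMT
import Pool.Agent.Lib.MP_391708_nt.X.PSI

/-!
# THEOREM X+ (MP_391708), part MT, module FMT: the conclusion
-/

set_option autoImplicit false

namespace Pool.Agent.Lib.MP391708.XPM

open Finset Filter Topology Pool.Agent.Lib.MP391708.MR
open Pool.Agent.Lib.MP391708.X (ChiG hk Dist Fam rgh VP Ix psi ix1 UOK lc On)
open Pool.Agent.Lib.MP391708.XP
open Pool.Agent.Lib.MP391708.XL (gg VQ VS PS)
open scoped ComplexConjugate

namespace FMTM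

lemma psi_ix1 (z : Gi) : psi ix1 z = 1 := by
  simp [psi, hk, ix1, xi]

end FMTM

open FMTM Classical in
/-- **FMT**. -/
theorem specFMT (hRED : SpecRED) (hBLX : SpecBLX) (hMNX : SpecMNX) (hXXL : SpecXXL) (hRRA : SpecRRA)
    (_hCHB : XL.SpecCHB) : SpecFMT := by
  obtain ⟨c, hc, hM⟩ := hMNX
  obtain ⟨c', hc', hX⟩ := hXXL
  have hπ : 0 < Real.pi := Real.pi_pos
  refine ⟨c / (8 * Real.pi) * c', by positivity, ?_⟩
  have h := (((((hRED (c / (8 * Real.pi)) (by positivity)).and (hBLX (c / 2) (by positivity))).and hM).and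
    hX).and (hRRA 1 one_pos)).and EV.uok
  refine h.mono ?_
  rintro p B U b y ⟨⟨⟨⟨⟨r1, r2⟩, r3⟩, r4⟩, r5⟩, r6⟩
  obtain ⟨r4a, r4b⟩ := r4
  obtain ⟨hV, -, -⟩ := r5
  obtain ⟨hix, r6⟩ := r6
  -- the inner sums
  have key : ∀ π ∈ GP p.P (2 * p.P), c / 2 * (VS b (PS p.w) * Z0 p y) ≤
      (∑ i ∈ U, psi i y * psi i π * (GG p i b * TT p y π b i)).re := by
    intro π hπ'
    obtain ⟨-, m2⟩ := r3 π hπ'
    have e1 := r2 π hπ'
    rw [← Finset.add_sum_erase U (fun i => psi i y * psi i π * (GG p i b * TT p y π b i)) hix,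
      Complex.add_re]
    have e2 : psi ix1 y * psi ix1 π * (GG p ix1 b * TT p y π b ix1) = GG p ix1 b * TT p y π b ix1 := by
      rw [psi_ix1, psi_ix1]; ring
    have e3 : ‖∑ i ∈ U.erase ix1, psi i y * psi i π * (GG p i b * TT p y π b i)‖ ≤
        c / 2 * VS b (PS p.w) * Z0 p y := by
      refine (norm_sum_le _ _).trans (le_trans ?_ e1)
      rw [Finset.filter_ne']
      refine Finset.sum_le_sum fun i hi => ?_
      have hiU := Finset.mem_of_mem_erase hi
      obtain ⟨-, hχ, -, -⟩ := r6 i hiU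
      rw [norm_mul, norm_mul]
      have n1 := X.PSIM.norm_psi_le hχ y
      have n2 := X.PSIM.norm_psi_le hχ π
      calc ‖psi i y‖ * ‖psi i π‖ * ‖GG p i b * TT p y π b i‖ ≤ 1 * 1 * ‖GG p i b * TT p y π b i‖ := by
            gcongr
        _ = ‖GG p i b * TT p y π b i‖ := by ring
    have e4 := (Complex.abs_re_le_norm (∑ i ∈ U.erase ix1, psi i y * psi i π *
      (GG p i b * TT p y π b i))).trans e3
    have e5 := (abs_le.1 e4).1
    simp only [e2]
    have e6 : c * VS b (PS p.w) * Z0 p y = c / 2 * (VS b (PS p.w) * Z0 p y) +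
      c / 2 * VS b (PS p.w) * Z0 p y := by ring
    linarith
  set M : ℂ := ((1 / (2 * Real.pi * VP p.w) : ℝ) : ℂ) * ∑ π ∈ GP p.P (2 * p.P), ∑ i ∈ U,
    psi i y * psi i π * (GG p i b * TT p y π b i) with hMdef
  have hMre : c / (4 * Real.pi) * XX p y b ≤ M.re := by
    rw [hMdef, Complex.re_ofReal_mul, Complex.re_sum]
    have e1 : ((GP p.P (2 * p.P)).card : ℝ) * (c / 2 * (VS b (PS p.w) * Z0 p y)) ≤
        ∑ π ∈ GP p.P (2 * p.P), (∑ i ∈ U, psi i y * psi i π * (GG p i b * TT p y π b i)).re := by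
      rw [← nsmul_eq_mul]
      exact Finset.card_nsmul_le_sum _ _ _ key
    have e2 : c / (4 * Real.pi) * XX p y b = 1 / (2 * Real.pi * VP p.w) *
        (((GP p.P (2 * p.P)).card : ℝ) * (c / 2 * (VS b (PS p.w) * Z0 p y))) := by
      unfold XX
      field_simp
      ring
    rw [e2]
    exact mul_le_mul_of_nonneg_left e1 (by positivity)
  have hdiff := (Complex.abs_re_le_norm _).trans r1
  rw [Complex.sub_re] at hdiff
  have hd := (abs_le.1 hdiff).1
  have e7 : c / (4 * Real.pi) * XX p y b = c / (8 * Real.pi) * XX p y b + c / (8 * Real.pi) * XX p y b := by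
    ring
  have e8 : c / (8 * Real.pi) * c' * (VS b (PS p.w) / VP p.w) *
      (p.N / (Real.log p.N ^ 3 * Real.log p.P * nm y)) ≤ c / (8 * Real.pi) * XX p y b := by
    have := mul_le_mul_of_nonneg_left r4a (by positivity : 0 ≤ c / (8 * Real.pi))
    calc c / (8 * Real.pi) * c' * (VS b (PS p.w) / VP p.w) *
      (p.N / (Real.log p.N ^ 3 * Real.log p.P * nm y)) = c / (8 * Real.pi) *
        (c' * (VS b (PS p.w) / VP p.w) * (p.N / (Real.log p.N ^ 3 * Real.log p.P * nm y))) := by ring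
      _ ≤ _ := this
  linarith

end Pool.Agent.Lib.MP391708.XPM
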