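import Pool.Agent.Lib.MP_391708_nt.XP.SpecMT

/-!
# THEOREM X+ (MP_391708), part MT: module HGT (helper89), `h` is large
-/

set_option autoImplicit false

namespace Pool.Agent.Lib.MP391708.XPM

open Finset Filter Topology Pool.Agent.Lib.MP391708.MR
open Pool.Agent.Lib.MP391708.XP

theorem specHGT : SpecHGT := by
  intro κ cw aU aQ aF _ _ _ _ _
  refine ⟨1, 1, one_pos, fun ch hch δ _ _ => ⟨0, fun cP _ => ⟨0, fun cT _ => ⟨0, fun cB _ => ?_⟩⟩⟩⟩
  have h1 : Tendsto (fun N : ℝ => Real.log N) atTop atTop := Real.tendsto_log_atTop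
  filter_upwards [h1.eventually_ge_atTop (max κ 1)] with N hN T P M B U b y _
  have h2 : κ ≤ Real.log N := (le_max_left _ _).trans hN
  have h3 : 1 ≤ Real.log N := (le_max_right _ _).trans hN
  have h4 : Real.log N ≤ Real.log N ^ ch := by
    calc Real.log N = Real.log N ^ (1 : ℝ) := (Real.rpow_one _).symm
      _ ≤ Real.log N ^ ch := Real.rpow_le_rpow_of_exponent_le h3 hch
  exact h2.trans h4

end Pool.Agent.Lib.MP391708.XPM
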