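import Pool.Agent.Lib.MP_391708_nt.XP.SpecMT

/-!
# Module LIN (MP_391708_nt, Theorem X+, part MT): the line sums

Copy of `X/MT/LIN.lean` for the boxes of `XP/Defs.lean`.
-/

set_option autoImplicit false

namespace Pool.Agent.Lib.MP391708.XPM

open Finset Filter Topology Pool.Agent.Lib.MP391708.MR
open Pool.Agent.Lib.MP391708.X (ChiG hk Dist Fam rgh VP Ix psi ix1 UOK lc On)
open Pool.Agent.Lib.MP391708.XP
open Pool.Agent.Lib.MP391708.XL (gg VQ VS PS)
open scoped ComplexConjugate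

namespace LINM

/-- the bounds for the norm of an element of `GP` -/
lemma gp_bd {P Q : ℝ} {z : Gi} (hz : z ∈ GP P Q) : P < (nm z : ℝ) ∧ (nm z : ℝ) ≤ Q := by
  have h := MR.mem_GP.1 hz
  exact ⟨by tauto, by tauto⟩

/-- the radius and the norm of the outer point -/
lemma radii (p : Par) (y π z ω : Gi) (v j : ℕ) (h1 : 1 ≤ p.h)
    (hE1 : Real.exp ((v : ℝ) / p.h) ≤ nm z)
    (hE2 : (nm z : ℝ) ≤ Real.exp ((v : ℝ) / p.h) * Real.exp (1 / p.h))
    (hω : (nm ω : ℝ) = nm y * nm z * nm π) :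
    rad p y π (v + j) ≤ Real.sqrt (nm ω * Real.exp ((j : ℝ) / p.h)) ∧
    Real.sqrt (nm ω * Real.exp ((j : ℝ) / p.h)) ≤ rad p y π (v + j) * Real.exp (4 / p.h) := by
  have hy : (0 : ℝ) ≤ nm y := Nat.cast_nonneg _
  have hp : (0 : ℝ) ≤ nm π := Nat.cast_nonneg _
  have hyp : (0 : ℝ) ≤ nm y * nm π := mul_nonneg hy hp
  have hJ : 0 < Real.exp ((j : ℝ) / p.h) := Real.exp_pos _
  have hs : Real.exp (((v + j : ℕ) : ℝ) / p.h) =
      Real.exp ((v : ℝ) / p.h) * Real.exp ((j : ℝ) / p.h) := by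
    rw [← Real.exp_add]
    congr 1
    push_cast
    ring
  constructor
  · unfold rad
    rw [hs, hω]
    apply Real.sqrt_le_sqrt
    have h2 := mul_le_mul_of_nonneg_right hE1 (mul_nonneg hyp hJ.le)
    calc (nm y : ℝ) * nm π * (Real.exp ((v : ℝ) / p.h) * Real.exp ((j : ℝ) / p.h))
        = Real.exp ((v : ℝ) / p.h) * (nm y * nm π * Real.exp ((j : ℝ) / p.h)) := by ring
      _ ≤ nm z * (nm y * nm π * Real.exp ((j : ℝ) / p.h)) := h2
      _ = nm y * nm z * nm π * Real.exp ((j : ℝ) / p.h) := by ring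
  · have h3 : rad p y π (v + j) * Real.exp (4 / p.h) =
        Real.sqrt ((nm y : ℝ) * nm π * (Real.exp ((v : ℝ) / p.h) * Real.exp ((j : ℝ) / p.h)) *
          Real.exp (4 / p.h) ^ 2) := by
      unfold rad
      rw [hs, Real.sqrt_mul' _ (sq_nonneg (Real.exp (4 / p.h))), Real.sqrt_sq (Real.exp_pos _).le]
    rw [h3, hω]
    apply Real.sqrt_le_sqrt
    have h4 : Real.exp (1 / p.h) ≤ Real.exp (4 / p.h) ^ 2 := by
      rw [← Real.exp_nat_mul]
      apply Real.exp_le_exp.2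
      have : 0 < p.h := by linarith
      have h5 : (1 : ℝ) / p.h ≤ 8 / p.h := div_le_div_of_nonneg_right (by norm_num) this.le
      refine h5.trans (le_of_eq ?_)
      push_cast
      ring
    have h6 := mul_le_mul_of_nonneg_right hE2 (mul_nonneg hyp hJ.le)
    have h7 : 0 ≤ nm y * nm π * (Real.exp ((v : ℝ) / p.h) * Real.exp ((j : ℝ) / p.h)) :=
      mul_nonneg hyp (by positivity)
    calc (nm y : ℝ) * nm z * nm π * Real.exp ((j : ℝ) / p.h)
        = nm z * (nm y * nm π * Real.exp ((j : ℝ) / p.h)) := by ring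
      _ ≤ Real.exp ((v : ℝ) / p.h) * Real.exp (1 / p.h) *
          (nm y * nm π * Real.exp ((j : ℝ) / p.h)) := h6
      _ = nm y * nm π * (Real.exp ((v : ℝ) / p.h) * Real.exp ((j : ℝ) / p.h)) *
          Real.exp (1 / p.h) := by ring
      _ ≤ _ := mul_le_mul_of_nonneg_left h4 h7

/-- the number of points of a line in a cell -/
lemma pts {N T P h K n1 nz np nω r : ℝ} (hN : 0 < N) (hT : 0 < T) (hP : 0 < P) (hh : 0 < h)
    (hn1 : 0 < n1) (hK : K = N / T) (hω : nω = n1 * nz * np) (hω0 : 0 < nω)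
    (hz : nz ≤ 2 * (K / n1)) (hz0 : 0 ≤ nz) (hp : np ≤ 2 * P) (hr : N / 8 ≤ r) :
    T / (P * h) ≤ 32 * (r / (h * nω)) := by
  have h1 : nω ≤ 4 * (N / T) * P := by
    rw [hω]
    have h2 : n1 * nz ≤ 2 * K := by
      calc n1 * nz ≤ n1 * (2 * (K / n1)) := mul_le_mul_of_nonneg_left hz hn1.le
        _ = 2 * K := by field_simp
    calc n1 * nz * np ≤ (n1 * nz) * (2 * P) := mul_le_mul_of_nonneg_left hp (by positivity)
      _ ≤ (2 * K) * (2 * P) := mul_le_mul_of_nonneg_right h2 (by positivity)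
      _ = 4 * (N / T) * P := by rw [hK]; ring
  have h3 : T / (P * h) = 32 * ((N / 8) / (h * (4 * (N / T) * P))) := by
    field_simp
    norm_num
  rw [h3]
  apply mul_le_mul_of_nonneg_left _ (by norm_num)
  calc (N / 8) / (h * (4 * (N / T) * P)) ≤ (N / 8) / (h * nω) := by
        apply div_le_div_of_nonneg_left (by positivity) (by positivity)
        exact mul_le_mul_of_nonneg_left h1 hh.le
    _ ≤ r / (h * nω) := div_le_div_of_nonneg_right hr (by positivity)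

/-- the error terms -/
lemma errs {C δ e h N k b r : ℝ} (hC : 0 < C) (hδ : 0 < δ) (he : C * e ≤ δ / 8) (hh : 0 < h)
    (hH : 8 * C / δ ≤ h) (hN : 0 < N) (hr : N / 8 ≤ r)
    (h1 : k * b ≤ δ / (4096 * C) * h * N) (h2 : k * b ^ 3 ≤ δ / (4096 * C) * N ^ 3) :
    C * (e + 1 / h + k * (b / (h * r) + (b / r) ^ 3)) ≤ δ / 2 := by
  have hr0 : 0 < r := by linarith
  have a1 : C * (1 / h) ≤ δ / 8 := by
    rw [mul_one_div, div_le_div_iff₀ hh (by norm_num)]
    rw [div_le_iff₀ hδ] at hH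
    linarith
  have a2 : C * (k * (b / (h * r))) ≤ δ / 8 := by
    have e1 : C * (k * (b / (h * r))) = C * (k * b) / (h * r) := by ring
    rw [e1, div_le_iff₀ (by positivity)]
    calc C * (k * b) ≤ C * (δ / (4096 * C) * h * N) := mul_le_mul_of_nonneg_left h1 hC.le
      _ = δ / 4096 * h * N := by field_simp
      _ ≤ δ / 4096 * h * (8 * r) := mul_le_mul_of_nonneg_left (by linarith) (by positivity)
      _ ≤ δ / 8 * (h * r) := by
        have : 0 ≤ δ * h * r := by positivity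
        nlinarith
  have a3 : C * (k * (b / r) ^ 3) ≤ δ / 8 := by
    have e1 : C * (k * (b / r) ^ 3) = C * (k * b ^ 3) / r ^ 3 := by
      rw [div_pow]
      ring
    rw [e1, div_le_iff₀ (by positivity)]
    have h3 : N ^ 3 ≤ (8 * r) ^ 3 := pow_le_pow_left₀ hN.le (by linarith) 3
    calc C * (k * b ^ 3) ≤ C * (δ / (4096 * C) * N ^ 3) := mul_le_mul_of_nonneg_left h2 hC.le
      _ = δ / 4096 * N ^ 3 := by field_simp
      _ ≤ δ / 4096 * (8 * r) ^ 3 := mul_le_mul_of_nonneg_left h3 (by positivity)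
      _ = δ / 8 * r ^ 3 := by ring
  calc C * (e + 1 / h + k * (b / (h * r) + (b / r) ^ 3))
      = C * e + C * (1 / h) + C * (k * (b / (h * r))) + C * (k * (b / r) ^ 3) := by ring
    _ ≤ δ / 8 + δ / 8 + δ / 8 + δ / 8 := by gcongr
    _ = δ / 2 := by ring

/-- the sum of the errors -/
lemma total {C δ A E V R q T : ℝ} (hC : 0 < C) (hδ : 0 < δ) (hA : A ≤ δ / 2) (hE : 0 ≤ E)
    (hV : 0 ≤ V) (hR : q * R ≤ δ / (64 * C) * T * V) (hT : T ≤ 32 * E) :
    A * E * V + C * q * R ≤ δ * E * V := by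
  have h1 : C * q * R ≤ δ / 2 * E * V := by
    calc C * q * R = C * (q * R) := by ring
      _ ≤ C * (δ / (64 * C) * T * V) := mul_le_mul_of_nonneg_left hR hC.le
      _ = δ / 64 * T * V := by field_simp
      _ ≤ δ / 64 * (32 * E) * V :=
        mul_le_mul_of_nonneg_right (mul_le_mul_of_nonneg_left hT (by positivity)) hV
      _ = δ / 2 * E * V := by ring
  have h2 : A * E * V ≤ δ / 2 * E * V :=
    mul_le_mul_of_nonneg_right (mul_le_mul_of_nonneg_right hA hE) hV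
  calc A * E * V + C * q * R ≤ δ / 2 * E * V + δ / 2 * E * V := add_le_add h2 h1
    _ = δ * E * V := by ring

end LINM

open LINM in
theorem specLIN (hLSM : Pool.Agent.Lib.MP391708.XL.SpecLSM) (hSIZ : SpecSIZ) (hFRQ : SpecFRQ)
    (hTBG : SpecTBG) (hHGT : SpecHGT) : SpecLIN := by
  obtain ⟨C, hC, hA, -, -, c, hc, hV⟩ := hLSM
  intro δ hδ
  obtain ⟨u, hu⟩ : ∃ u : ℕ, C * Real.exp (-(u : ℝ)) ≤ δ / 8 := by
    obtain ⟨u, hu⟩ := exists_nat_ge (8 * C / δ)
    refine ⟨u, ?_⟩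
    have h1 : (u : ℝ) ≤ Real.exp u := by
      have := Real.add_one_le_exp (u : ℝ)
      linarith
    have h2 : 8 * C / δ ≤ Real.exp u := hu.trans h1
    rw [div_le_iff₀ hδ] at h2
    rw [Real.exp_neg, ← div_eq_mul_inv, div_le_div_iff₀ (Real.exp_pos _) (by norm_num)]
    linarith
  have hd1 : 0 < δ / (4096 * C) := by positivity
  have hd2 : 0 < δ / (64 * C) := by positivity
  have hEV := ((((hSIZ.and (hFRQ _ hd1)).and (hTBG u _ hd2)).and (hHGT (8 * C / δ))).and EV.uok)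
  refine hEV.mono ?_
  rintro p B U b y ⟨⟨⟨⟨hS, hF⟩, hT⟩, hH⟩, hU1, hU⟩ i hi π hπ z hz v4 hv4 v2 hv2
  obtain ⟨hi1, hchi, -, -⟩ := hU i hi
  obtain ⟨om1, om2, om3, om4, om5⟩ := hS.om π hπ z hz
  obtain ⟨ce1, -, ce3, ce4⟩ := hS.ce z hz
  obtain ⟨f1, f2⟩ := hF i hi
  have hra := hS.ra π hπ _ ce1 v4 hv4 v2 hv2
  have hh : 100 ≤ p.h := hS.h1
  have hN : 1000000 ≤ p.N := hS.N1
  have hr2 := radii p y π z (y * z * π) ⌊p.h * Real.log (nm z)⌋₊ (v4 + v2) (by linarith) ce3 ce4 om4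
  rw [← add_assoc] at hr2
  set r : ℝ := rad p y π (⌊p.h * Real.log (nm z)⌋₊ + v4 + v2) with hr
  have hr0 : 0 < r := by linarith [hra.1]
  have hw : 1 ≤ p.w := hS.w1
  have hV' := hV (b : ℤ) p.w hw
  have hb2 := hS.b2
  have hh2 := hS.h2
  have hm := (hA u i (y * z * π) b p.h p.w r (p.N * p.T) (v4 + v2) hi1 hchi om1 om2
    (om3 i hi) hw hS.b1 (by linarith) (by linarith [hra.1]) (by linarith [hra.1])
    (by linarith [hra.1]) (hS.jj v4 hv4 v2 hv2).2 hr2.1 hr2.2).1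
  have e : LL p i (y * z * π) b (v4 + v2) -
      ((r / (2 * p.h * nm (y * z * π)) : ℝ) : ℂ) *
        GG p i b * psi i (y * z * π) * Complex.exp (-(Complex.I * i.2.2 * b / (r : ℝ))) =
      LL p i (y * z * π) b (v4 + v2) -
        ((r / (2 * p.h * nm (y * z * π)) * VQ i.1 b (PS p.w) : ℝ) : ℂ) * psi i (y * z * π) *
          gg i.2.1 i.1 b * Complex.exp (-(Complex.I * i.2.2 * b / (r : ℝ))) := by
    unfold GG
    push_cast
    ring
  rw [e]
  refine le_trans hm ?_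
  have hP : 100 ≤ p.P := hS.P1
  have hTP : 1000 * p.P ≤ p.T := hS.T1
  have hω0 : (0 : ℝ) < nm (y * z * π) := by exact_mod_cast om5
  have hy0 : (0 : ℝ) < nm y := by
    have := hS.ny
    exact_mod_cast (show 0 < nm y by omega)
  have hpt : p.T / (p.P * p.h) ≤ 32 * (r / (p.h * nm (y * z * π))) :=
    pts (by linarith) (by linarith) (by linarith) (by linarith) hy0 rfl om4 hω0 (gp_bd hz).2
      (Nat.cast_nonneg _) (gp_bd hπ).2 hra.1
  exact total hC hδ
    (errs hC hδ hu (by linarith) hH (by linarith) hra.1 f1 f2)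
    (by positivity) hV'.2.1.le (hT i hi) hpt

end Pool.Agent.Lib.MP391708.XPM
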