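import Pool.Agent.Lib.MP_391708_nt.XP.SpecMT

/-!
# THEOREM X+ (MP_391708), part MT, module MNX: the trivial character (helper1)
-/

set_option autoImplicit false

namespace Pool.Agent.Lib.MP391708.XPM

open Finset Filter Topology Pool.Agent.Lib.MP391708.MR
open Pool.Agent.Lib.MP391708.X (ChiG hk Dist Fam rgh VP Ix psi ix1 UOK lc On)
open Pool.Agent.Lib.MP391708.XP
open Pool.Agent.Lib.MP391708.XL (gg VQ VS PS)
open scoped ComplexConjugate

namespace MNXM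

lemma psi1 (z : Gi) : psi ix1 z = 1 := by
  unfold psi hk ix1 xi
  simp

/-- the cells partition the primes -/
lemma cells {h M : ℝ} (hh : 0 ≤ h) (hM : 1 ≤ M) :
    ∑ v ∈ VV h M (2 * M), ((cell h M (2 * M) v).card : ℝ) = ((GP M (2 * M)).card : ℝ) := by
  have h1 : (GP M (2 * M)).card = ∑ v ∈ VV h M (2 * M), (cell h M (2 * M) v).card := by
    unfold cell
    refine Finset.card_eq_sum_card_fiberwise fun z hz => ?_
    have hz' : z ∈ GP M (2 * M) := hz
    unfold GP disc at hz'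
    rw [mem_filter, mem_filter] at hz'
    obtain ⟨⟨-, -, h2⟩, -, -, -, -, h3⟩ := hz'
    have h4 : (0 : ℝ) < M := by linarith
    show _ ∈ (VV h M (2 * M) : Set ℕ)
    unfold VV
    rw [Finset.coe_Icc, Set.mem_Icc]
    constructor
    · exact Nat.floor_le_floor (mul_le_mul_of_nonneg_left (Real.log_le_log h4 h3.le) hh)
    · exact Nat.floor_le_floor (mul_le_mul_of_nonneg_left
        (Real.log_le_log (h4.trans h3) h2) hh)
  rw [h1]
  push_cast
  rfl

/-- the lower bound for the number of primes -/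
lemma low {c X0 N M : ℝ} (hc : 0 < c)
    (h0 : ∀ X : ℝ, X0 ≤ X → c * X / Real.log X ≤ ((GP X (2 * X)).card : ℝ))
    (h1 : 2 ≤ M) (h2 : X0 ≤ M) (h3 : M ≤ N) : c * M / Real.log N ≤ ((GP M (2 * M)).card : ℝ) := by
  refine le_trans ?_ (h0 M h2)
  have h4 : 0 < Real.log M := Real.log_pos (by linarith)
  have h5 : Real.log M ≤ Real.log N := Real.log_le_log (by linarith) h3
  have h6 : 0 ≤ c * M := mul_nonneg hc.le (by linarith)
  exact div_le_div_of_nonneg_left h6 h4 h5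

/-- the real number of which the main term is made -/
noncomputable def t (p : Par) (y π : Gi) : ℝ :=
  ∑ u ∈ I1 p y, ∑ v4 ∈ I4 p, ∑ v2 ∈ I2 p,
    ((cell p.h (p.K / nm y) (2 * (p.K / nm y)) u).card : ℝ) *
      ((cell p.h p.M4 (2 * p.M4) v4).card : ℝ) * (4 * ((cell p.h p.M2 (2 * p.M2) v2).card : ℝ)) *
      (1 / rad p y π (u + v4 + v2))

lemma TT_eq (p : Par) (y π : Gi) (b : ℕ) : TT p y π b ix1 = ((t p y π : ℝ) : ℂ) := by
  unfold TT t
  push_cast
  refine Finset.sum_congr rfl fun u _ => Finset.sum_congr rfl fun v4 _ =>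
    Finset.sum_congr rfl fun v2 _ => ?_
  have h1 : S1 p y ix1 u = ((cell p.h (p.K / nm y) (2 * (p.K / nm y)) u).card : ℂ) := by
    unfold S1
    rw [Finset.sum_congr rfl fun z _ => psi1 z]
    simp
  have h2 : S4 p ix1 v4 = ((cell p.h p.M4 (2 * p.M4) v4).card : ℂ) := by
    unfold S4
    rw [Finset.sum_congr rfl fun z _ => psi1 z]
    simp
  have h3 : S2 p ix1 v2 = 4 * ((cell p.h p.M2 (2 * p.M2) v2).card : ℂ) := by
    unfold S2
    rw [Finset.sum_congr rfl fun z _ => psi1 z]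
    simp
  have h4 : (ix1.2.2 : ℂ) = 0 := by
    unfold ix1
    simp
  rw [h1, h2, h3, h4]
  simp

lemma tri (s t r : Finset ℕ) (f g k : ℕ → ℝ) (q : ℝ) :
    (∑ u ∈ s, f u) * (∑ v ∈ t, g v) * (4 * ∑ w ∈ r, k w) * q =
      ∑ u ∈ s, ∑ v ∈ t, ∑ w ∈ r, f u * g v * (4 * k w) * q := by
  simp_rw [← Finset.sum_mul, ← Finset.mul_sum, ← Finset.sum_mul]
  rw [Finset.sum_mul_sum]

lemma t_ge {p : Par} {y π : Gi} (hN : 0 < p.N)
    (hr : ∀ u ∈ I1 p y, ∀ v4 ∈ I4 p, ∀ v2 ∈ I2 p,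
      p.N / 8 ≤ rad p y π (u + v4 + v2) ∧ rad p y π (u + v4 + v2) ≤ 2 * p.N)
    (hh : 0 ≤ p.h) (h1 : 1 ≤ p.K / nm y) (h4 : 1 ≤ p.M4) (h2 : 1 ≤ p.M2) :
    ((GP (p.K / nm y) (2 * (p.K / nm y))).card : ℝ) * ((GP p.M4 (2 * p.M4)).card : ℝ) *
      (4 * ((GP p.M2 (2 * p.M2)).card : ℝ)) * (1 / (2 * p.N)) ≤ t p y π := by
  rw [← cells hh h1, ← cells hh h4, ← cells hh h2]
  unfold t
  have e : (∑ v ∈ VV p.h (p.K / nm y) (2 * (p.K / nm y)),
        ((cell p.h (p.K / nm y) (2 * (p.K / nm y)) v).card : ℝ)) *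
      (∑ v ∈ VV p.h p.M4 (2 * p.M4), ((cell p.h p.M4 (2 * p.M4) v).card : ℝ)) *
      (4 * ∑ v ∈ VV p.h p.M2 (2 * p.M2), ((cell p.h p.M2 (2 * p.M2) v).card : ℝ)) *
      (1 / (2 * p.N)) =
      ∑ u ∈ I1 p y, ∑ v4 ∈ I4 p, ∑ v2 ∈ I2 p,
        ((cell p.h (p.K / nm y) (2 * (p.K / nm y)) u).card : ℝ) *
          ((cell p.h p.M4 (2 * p.M4) v4).card : ℝ) *
          (4 * ((cell p.h p.M2 (2 * p.M2) v2).card : ℝ)) * (1 / (2 * p.N)) := by
    unfold I1 I4 I2
    exact tri _ _ _ _ _ _ _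
  rw [e]
  refine Finset.sum_le_sum fun u hu => Finset.sum_le_sum fun v4 hv4 =>
    Finset.sum_le_sum fun v2 hv2 => ?_
  obtain ⟨h5, h6⟩ := hr u hu v4 hv4 v2 hv2
  have h7 : 0 < rad p y π (u + v4 + v2) := lt_of_lt_of_le (by linarith) h5
  exact mul_le_mul_of_nonneg_left (one_div_le_one_div_of_le h7 h6) (by positivity)

end MNXM

open MNXM in
/-- The trivial character. -/
theorem specMNX (hCNT : SpecCNT) (hSIZ : SpecSIZ) (hLSM : XL.SpecLSM) : SpecMNX := by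
  obtain ⟨c, hc, hcn⟩ := hCNT
  obtain ⟨X0, hX0⟩ := Filter.eventually_atTop.1 hcn
  obtain ⟨-, -, -, -, hD, c', hc', hE⟩ := hLSM
  have hX : EV (fun p _ _ _ _ => max X0 2 ≤ p.N ^ (1 / 3 : ℝ)) := by
    intro cw aU aQ aF _ _ _ _ _
    refine ⟨0, 1, one_pos, fun ch _ δ _ _ => ⟨0, fun cP _ => ⟨0, fun cT _ => ⟨0, fun cB _ => ?_⟩⟩⟩⟩
    have h1 : Tendsto (fun N : ℝ => N ^ (1 / 3 : ℝ)) atTop atTop :=
      tendsto_rpow_atTop (by norm_num)
    filter_upwards [h1.eventually_ge_atTop (max X0 2)] with N hN T P M B U b y _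
    exact hN
  refine ⟨2 * c ^ 3, by positivity, (hSIZ.and hX).mono ?_⟩
  rintro p B U b y ⟨hS, hX1⟩ π hπ
  have hN : (0 : ℝ) < p.N := by have := hS.N1; linarith
  have hN1 : (1 : ℝ) ≤ p.N := by have := hS.N1; linarith
  have hw : 0 ≤ p.w := by have := hS.w1; linarith
  have hl : 0 < Real.log p.N := by have := hS.l1; linarith
  obtain ⟨hg, hq⟩ := hD (b : ℤ) p.w
  have hGG : GG p ix1 b = ((VS b (PS p.w) : ℝ) : ℂ) := by
    have e1 : GG p ix1 b = ((VQ 1 b (PS p.w) : ℝ) : ℂ) * gg (fun _ => 1) 1 b := rfl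
    rw [e1, hg, hq, mul_one]
  have hGT : GG p ix1 b * TT p y π b ix1 = ((VS b (PS p.w) * t p y π : ℝ) : ℂ) := by
    rw [hGG, TT_eq]
    push_cast
    rfl
  rw [hGT]
  refine ⟨Complex.ofReal_im _, ?_⟩
  rw [Complex.ofReal_re]
  have hVS : 0 ≤ VS b (PS p.w) := (hE (b : ℤ) p.w hS.w1).2.1.le
  have hX2 : X0 ≤ p.N ^ (1 / 3 : ℝ) := (le_max_left _ _).trans hX1
  have hX3 : 2 ≤ p.N ^ (1 / 3 : ℝ) := (le_max_right _ _).trans hX1
  have hK : p.N ^ (1 / 3 : ℝ) ≤ p.K / nm y :=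
    (Real.rpow_le_rpow_of_exponent_le hN1 (by norm_num)).trans hS.K1
  have hM4 := hS.M41
  have hM2 := hS.M21
  have hM42 := hS.M42
  have hM22 := hS.M22
  have hK2 := hS.K2
  have l1 := low hc hX0 (N := p.N) (M := p.K / nm y) (by linarith) (by linarith) hK2
  have l4 := low hc hX0 (N := p.N) (M := p.M4) (by linarith) (by linarith) (by linarith)
  have l2 := low hc hX0 (N := p.N) (M := p.M2) (by linarith) (by linarith) (by linarith)
  have ht := t_ge (y := y) (π := π) hN (hS.ra π hπ) (by have := hS.h1; linarith)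
    (by linarith) (by linarith) (by linarith)
  have hKp : 0 < p.K / nm y := by linarith
  have h4p : 0 < p.M4 := by linarith
  have h2p : 0 < p.M2 := by linarith
  have hm : 2 * c ^ 3 * Z0 p y ≤ t p y π := by
    refine le_trans ?_ ht
    have e : 2 * c ^ 3 * Z0 p y = (c * (p.K / nm y) / Real.log p.N) *
        (c * p.M4 / Real.log p.N) * (4 * (c * p.M2 / Real.log p.N)) * (1 / (2 * p.N)) := by
      unfold Z0
      generalize p.K / nm y = k
      field_simp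
      ring
    rw [e]
    have p1 : 0 ≤ c * (p.K / nm y) / Real.log p.N := by positivity
    have p4 : 0 ≤ c * p.M4 / Real.log p.N := by positivity
    have p2 : 0 ≤ c * p.M2 / Real.log p.N := by positivity
    gcongr
  calc 2 * c ^ 3 * VS b (PS p.w) * Z0 p y = VS b (PS p.w) * (2 * c ^ 3 * Z0 p y) := by ring
    _ ≤ VS b (PS p.w) * t p y π := mul_le_mul_of_nonneg_left hm hVS

end Pool.Agent.Lib.MP391708.XPM
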