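import Pool.Agent.Lib.MP_391708_nt.XP.SpecMT

/-!
# THEOREM X+ (MP_391708), part MT, module PSM (helper32): the initial sums of `S4`
-/

set_option autoImplicit false

namespace Pool.Agent.Lib.MP391708.XPM

open Finset Filter Topology Pool.Agent.Lib.MP391708.MR
open Pool.Agent.Lib.MP391708.X (ChiG hk Dist Fam rgh VP Ix psi ix1 UOK lc On)
open Pool.Agent.Lib.MP391708.XP
open Pool.Agent.Lib.MP391708.XL (gg VQ VS PS)
open scoped ComplexConjugate

namespace PSMM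

/-- PHX in the contexts -/
theorem ph (hPHX : Pool.Agent.Lib.MP391708.X.PH.SpecPHX) (ε : ℝ) (hε : 0 < ε) : EV (fun p _ U _ _ => ∀ i ∈ U, i ≠ ix1 →
    ∀ y y' : ℝ, p.N ^ (1 / 3 : ℝ) ≤ y → y ≤ y' → y' ≤ p.N →
      ‖∑ π ∈ GP y y', psi i π‖ ≤ ε * y' / Real.log y') := by
  intro cw aU aQ aF _ _ _ haQ haF
  obtain ⟨N₀, hN₀⟩ := hPHX ε (max aQ 2) (1 / 3) hε ((by norm_num : (1 : ℝ) ≤ 2).trans (le_max_right _ _))
    (by norm_num) (by norm_num)
  refine ⟨0, 1, one_pos, fun ch _ d _ _ => ⟨0, fun cP hcP => ⟨0, fun cT hcT => ⟨0, fun cB hcB => ?_⟩⟩⟩⟩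
  have hlog : Tendsto (fun N : ℝ => Real.log N) atTop atTop := Real.tendsto_log_atTop
  have hlo : ∀ᶠ N : ℝ in atTop, Real.log N ^ aF ≤ N := by
    have h1 := (isLittleO_log_rpow_rpow_atTop aF (zero_lt_one)).bound (c := 1) one_pos
    filter_upwards [h1, hlog.eventually_ge_atTop 1, eventually_gt_atTop 0] with N hN hl h0
    rw [Real.rpow_one, one_mul, Real.norm_of_nonneg (Real.rpow_nonneg (by linarith) _),
      Real.norm_of_nonneg h0.le] at hN
    exact hN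
  filter_upwards [eventually_ge_atTop N₀, hlog.eventually_ge_atTop 1, eventually_ge_atTop 1, hlo]
    with N hN hl1 hN1 hlN T P M B U b y hc i hi hne y₁ y₂ h1 h2 h3
  have hok := hc.ok
  obtain ⟨hf1, hf2, hf3⟩ := hok.ch i hi
  have hlN0 : 0 < Real.log N := by linarith
  have hP : 1 ≤ P := (Real.one_le_rpow hl1 hcP).trans hc.box.P1
  have hT : 1 ≤ T := (one_le_mul_of_one_le_of_one_le hP (Real.one_le_rpow hl1 hcT)).trans hc.box.T1
  have hB : 1 ≤ B := (one_le_mul_of_one_le_of_one_le (one_le_mul_of_one_le_of_one_le hT hP)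
    (Real.one_le_rpow hl1 hcB)).trans hc.box.B1
  have hf : (i.1 : ℝ) ≤ Real.log N ^ max aQ 2 :=
    hf2.trans (Real.rpow_le_rpow_of_exponent_le hl1 (le_max_left _ _))
  have hk : |(i.2.2 : ℝ)| ≤ N ^ max aQ 2 := by
    refine (hok.frq i hi).trans ?_
    have h4 : N / B ≤ N := div_le_self (by linarith) hB
    calc Real.log N ^ aF * (N / B) ≤ N * N := by
          apply mul_le_mul hlN h4 (by positivity) (by linarith)
      _ = N ^ (2 : ℝ) := by rw [Real.rpow_two]; ring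
      _ ≤ N ^ max aQ 2 := Real.rpow_le_rpow_of_exponent_le hN1 (le_max_right _ _)
  have hnp : i.2.2 ≠ 0 ∨ ∃ z, i.2.1 z ≠ 0 ∧ i.2.1 z ≠ 1 := by
    rcases hok.dif i hi ix1 hok.one hne with h | ⟨z, hz1, -, hz3⟩
    · exact Or.inl h
    · exact Or.inr ⟨z, hz1, hz3⟩
  exact hN₀ N hN i.1 i.2.1 i.2.2 hf1 hf hf3 hk hnp (hok.adm i hi) y₁ y₂ h1 h2 h3

/-- the initial cells -/
theorem cells {h M : ℝ} (hh : 0 < h) (hM : 1 ≤ M) (m : ℕ) (ψ : Gi → ℂ) :
    ∑ v ∈ (VV h M (2 * M)).filter (fun v => v < m), ∑ π ∈ cell h M (2 * M) v, ψ π =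
      ∑ π ∈ GP M (min (2 * M) ((⌈Real.exp (m / h)⌉₊ : ℝ) - 1)), ψ π := by
  have h1 : ∀ π ∈ GP M (2 * M), ⌊h * Real.log (nm π)⌋₊ ∈ VV h M (2 * M) := by
    intro π hπ
    rw [mem_GP] at hπ
    obtain ⟨-, -, -, -, h5, h6⟩ := hπ
    rw [VV, mem_Icc]
    have hn : (0 : ℝ) < nm π := by linarith
    constructor
    · apply Nat.floor_mono
      apply mul_le_mul_of_nonneg_left _ hh.le
      exact Real.log_le_log (by linarith) h5.le
    · apply Nat.floor_mono
      apply mul_le_mul_of_nonneg_left _ hh.le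
      exact Real.log_le_log hn h6
  have h2 : GP M (min (2 * M) ((⌈Real.exp (m / h)⌉₊ : ℝ) - 1)) =
      (GP M (2 * M)).filter (fun π => ⌊h * Real.log (nm π)⌋₊ < m) := by
    ext π
    rw [mem_filter, mem_GP, mem_GP]
    constructor
    · rintro ⟨a1, a2, a3, a4, a5, a6⟩
      refine ⟨⟨a1, a2, a3, a4, a5, a6.trans (min_le_left _ _)⟩, ?_⟩
      have hn : (0 : ℝ) < nm π := by linarith
      have h3 : (nm π : ℝ) ≤ (⌈Real.exp (m / h)⌉₊ : ℝ) - 1 := a6.trans (min_le_right _ _)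
      have h4 : nm π < ⌈Real.exp (m / h)⌉₊ := by
        have : (nm π : ℝ) < (⌈Real.exp (m / h)⌉₊ : ℝ) := by linarith
        exact_mod_cast this
      rw [Nat.lt_ceil, ← Real.log_lt_iff_lt_exp hn, lt_div_iff₀ hh, mul_comm] at h4
      rw [Nat.floor_lt (mul_nonneg hh.le (Real.log_nonneg (by linarith)))]
      exact h4
    · rintro ⟨⟨a1, a2, a3, a4, a5, a6⟩, a7⟩
      refine ⟨a1, a2, a3, a4, a5, le_min a6 ?_⟩
      have hn : (0 : ℝ) < nm π := by linarith
      rw [Nat.floor_lt (mul_nonneg hh.le (Real.log_nonneg (by linarith))), mul_comm,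
        ← lt_div_iff₀ hh, Real.log_lt_iff_lt_exp hn, ← Nat.lt_ceil] at a7
      have : (nm π : ℝ) + 1 ≤ (⌈Real.exp (m / h)⌉₊ : ℝ) := by exact_mod_cast a7
      linarith
  rw [h2, sum_filter, sum_filter]
  have h3 : ∀ v ∈ VV h M (2 * M), (if v < m then ∑ π ∈ cell h M (2 * M) v, ψ π else 0) =
      ∑ π ∈ GP M (2 * M), if ⌊h * Real.log (nm π)⌋₊ = v then
        (if ⌊h * Real.log (nm π)⌋₊ < m then ψ π else 0) else 0 := by
    intro v _
    rw [cell, sum_filter]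
    by_cases hv : v < m
    · rw [if_pos hv]
      refine sum_congr rfl fun π _ => ?_
      by_cases h4 : ⌊h * Real.log (nm π)⌋₊ = v
      · rw [if_pos h4, if_pos h4, if_pos (h4 ▸ hv)]
      · rw [if_neg h4, if_neg h4]
    · rw [if_neg hv]
      symm
      refine sum_eq_zero fun π _ => ?_
      by_cases h4 : ⌊h * Real.log (nm π)⌋₊ = v
      · rw [if_pos h4, if_neg (h4 ▸ hv)]
      · rw [if_neg h4]
  rw [sum_congr rfl h3, sum_comm]
  refine sum_congr rfl fun π hπ => ?_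
  rw [sum_ite_eq, if_pos (h1 π hπ)]

end PSMM

open PSMM in
theorem specPSM (hPHX : Pool.Agent.Lib.MP391708.X.PH.SpecPHX) (hSIZ : SpecSIZ) : SpecPSM := by
  intro δ hδ
  refine (hSIZ.and (ph hPHX (δ / 6) (by positivity))).mono ?_
  rintro p B U b y ⟨hs, hp⟩ i hi hne m
  have hh : 0 < p.h := by linarith [hs.h1]
  have hN1 : 1 < p.N := by linarith [hs.N1]
  have hN0 : 0 < p.N := by linarith
  have hlN : 0 < Real.log p.N := by linarith [hs.l1]
  have hM1 : 1 ≤ p.M4 := (Real.one_le_rpow hN1.le (by norm_num)).trans hs.M41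
  have hM0 : 0 < p.M4 := by linarith
  have hlM : 1 / 3 * Real.log p.N ≤ Real.log p.M4 := by
    rw [← Real.log_rpow hN0]
    exact Real.log_le_log (Real.rpow_pos_of_pos hN0 _) hs.M41
  have hrhs : 0 ≤ δ * p.M4 / Real.log p.N := by positivity
  have h1 : ∑ v ∈ (I4 p).filter (fun v => v < m), S4 p i v =
      ∑ π ∈ GP p.M4 (min (2 * p.M4) ((⌈Real.exp (m / p.h)⌉₊ : ℝ) - 1)), psi i π :=
    cells hh hM1 m (psi i)
  rw [h1]
  set y' : ℝ := min (2 * p.M4) ((⌈Real.exp (m / p.h)⌉₊ : ℝ) - 1) with hy'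
  rcases le_or_gt y' p.M4 with hle | hgt
  · have he : GP p.M4 y' = ∅ := by
      rw [eq_empty_iff_forall_notMem]
      intro π hπ
      rw [mem_GP] at hπ
      linarith [hπ.2.2.2.2.1, hπ.2.2.2.2.2]
    rw [he, sum_empty, norm_zero]
    exact hrhs
  · have hy2 : y' ≤ 2 * p.M4 := min_le_left _ _
    refine (hp i hi hne p.M4 y' hs.M41 hgt.le (hy2.trans hs.M42)).trans ?_
    have hly : 1 / 3 * Real.log p.N ≤ Real.log y' := hlM.trans (Real.log_le_log hM0 hgt.le)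
    have hly0 : 0 < Real.log y' := by linarith
    rw [div_le_div_iff₀ hly0 hlN]
    have h2 : δ / 6 * y' * Real.log p.N ≤ δ / 6 * (2 * p.M4) * Real.log p.N := by
      gcongr
    have h3 : δ * p.M4 * (1 / 3 * Real.log p.N) ≤ δ * p.M4 * Real.log y' := by
      gcongr
    linarith

end Pool.Agent.Lib.MP391708.XPM
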