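import Pool.Agent.Lib.MP_391708_nt.XP.SpecMT
import Pool.Agent.Lib.MP_391708_nt.MR.Basic

/-!
# THEOREM X+ (MP_391708), part MT, module RED: the reduction to the trilinear sums (helper92)
-/

set_option autoImplicit false

namespace Pool.Agent.Lib.MP391708.XPM

open Finset Filter Topology Pool.Agent.Lib.MP391708.MR
open Pool.Agent.Lib.MP391708.X (ChiG hk Dist Fam rgh VP Ix psi ix1 UOK lc On)
open Pool.Agent.Lib.MP391708.XP
open Pool.Agent.Lib.MP391708.XL (gg VQ VS PS)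
open scoped ComplexConjugate

namespace REDM

/-- the sieve factors of a line are nonnegative -/
lemma VQ_nonneg (q : ℕ) (b : ℤ) (S : Finset ℕ) : 0 ≤ VQ q b S := by
  unfold XL.VQ
  refine Finset.prod_nonneg fun p _ => ?_
  unfold XL.gb
  rw [sub_nonneg]
  rcases Nat.eq_zero_or_pos p with h | h
  · subst h
    simp
  · rw [div_le_one (by exact_mod_cast h)]
    have h1 := Finset.card_filter_le (range p) (fun n : ℕ => p ∣ nm (XL.pt n b))
    rw [card_range] at h1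
    exact_mod_cast h1

lemma psi_mul {i : Ix} (hi : ChiG (i.1 : Gi) i.2.1) (x y : Gi) :
    psi i (x * y) = psi i x * psi i y := by
  unfold psi hk
  rw [hi.mul, xi_mul]
  ring

lemma psi_le {i : Ix} (hi : ∀ v, ‖i.2.1 v‖ ≤ 1) {x : Gi} (hx : x ≠ 0) : ‖psi i x‖ ≤ 1 := by
  unfold psi hk
  rw [norm_mul, norm_xi _ hx, mul_one]
  exact hi x

lemma psi_ix1 (x : Gi) : psi ix1 x = 1 := by
  unfold psi hk ix1 xi
  simp

lemma norm_e (k : ℤ) (b : ℕ) (r : ℝ) :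
    ‖Complex.exp (-(Complex.I * k * b / (r : ℝ)))‖ = 1 := by
  have h : (-(Complex.I * k * b / ((r : ℝ) : ℂ))) = ((-((k : ℝ) * b / r) : ℝ) : ℂ) * Complex.I := by
    push_cast
    ring
  rw [h, Complex.norm_exp_ofReal_mul_I]

/-- one term of the expanded main term -/
noncomputable def TM (p : Par) (y : Gi) (b : ℕ) (π z : Gi) (v4 v2 : ℕ) (i : Ix) : ℂ :=
  ((1 / (2 * Real.pi * VP p.w) : ℝ) : ℂ) * (psi i y * psi i π * (GG p i b *
    (psi i z * S4 p i v4 * S2 p i v2 *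
      (((1 / rad p y π (⌊p.h * Real.log (nm z)⌋₊ + v4 + v2) : ℝ) : ℂ) *
        Complex.exp (-(Complex.I * i.2.2 * b /
          (rad p y π (⌊p.h * Real.log (nm z)⌋₊ + v4 + v2) : ℝ)))))))

/-- the main term, expanded -/
lemma expand (p : Par) (U : Finset Ix) (b : ℕ) (y : Gi) (hS : Siz p U b y) :
    ((1 / (2 * Real.pi * VP p.w) : ℝ) : ℂ) * ∑ π ∈ GP p.P (2 * p.P), ∑ i ∈ U,
      psi i y * psi i π * (GG p i b * TT p y π b i) =
    ∑ π ∈ GP p.P (2 * p.P), ∑ z ∈ GP (p.K / nm y) (2 * (p.K / nm y)),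
      ∑ v4 ∈ I4 p, ∑ v2 ∈ I2 p, ∑ i ∈ U, TM p y b π z v4 v2 i := by
  rw [Finset.mul_sum]
  refine Finset.sum_congr rfl fun π _ => ?_
  -- the sum over z is the sum over the cells
  have h1 : ∀ i : Ix, TT p y π b i = ∑ z ∈ GP (p.K / nm y) (2 * (p.K / nm y)),
      ∑ v4 ∈ I4 p, ∑ v2 ∈ I2 p, psi i z * S4 p i v4 * S2 p i v2 *
      (((1 / rad p y π (⌊p.h * Real.log (nm z)⌋₊ + v4 + v2) : ℝ) : ℂ) *
        Complex.exp (-(Complex.I * i.2.2 * b /
          (rad p y π (⌊p.h * Real.log (nm z)⌋₊ + v4 + v2) : ℝ)))) := by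
    intro i
    rw [← Finset.sum_fiberwise_of_maps_to (s := GP (p.K / nm y) (2 * (p.K / nm y)))
      (t := I1 p y) (g := fun z => ⌊p.h * Real.log (nm z)⌋₊) (fun z hz => (hS.ce z hz).1)]
    unfold TT
    refine Finset.sum_congr rfl fun u _ => ?_
    have h2 : ∀ z ∈ (GP (p.K / nm y) (2 * (p.K / nm y))).filter
        (fun z => ⌊p.h * Real.log (nm z)⌋₊ = u),
        (∑ v4 ∈ I4 p, ∑ v2 ∈ I2 p, psi i z * S4 p i v4 * S2 p i v2 *
        (((1 / rad p y π (⌊p.h * Real.log (nm z)⌋₊ + v4 + v2) : ℝ) : ℂ) *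
        Complex.exp (-(Complex.I * i.2.2 * b /
          (rad p y π (⌊p.h * Real.log (nm z)⌋₊ + v4 + v2) : ℝ))))) =
        psi i z * ∑ v4 ∈ I4 p, ∑ v2 ∈ I2 p, S4 p i v4 * S2 p i v2 *
        (((1 / rad p y π (u + v4 + v2) : ℝ) : ℂ) *
        Complex.exp (-(Complex.I * i.2.2 * b / (rad p y π (u + v4 + v2) : ℝ)))) := by
      intro z hz
      rw [(Finset.mem_filter.1 hz).2]
      simp only [Finset.mul_sum, mul_assoc]
    rw [Finset.sum_congr rfl h2, ← Finset.sum_mul]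
    have h3 : S1 p y i u = ∑ z ∈ (GP (p.K / nm y) (2 * (p.K / nm y))).filter
        (fun z => ⌊p.h * Real.log (nm z)⌋₊ = u), psi i z := rfl
    rw [← h3]
    simp only [Finset.mul_sum, mul_assoc]
  rw [Finset.mul_sum]
  have h4 : ∀ i ∈ U, ((1 / (2 * Real.pi * VP p.w) : ℝ) : ℂ) *
      (psi i y * psi i π * (GG p i b * TT p y π b i)) =
      ∑ z ∈ GP (p.K / nm y) (2 * (p.K / nm y)), ∑ v4 ∈ I4 p, ∑ v2 ∈ I2 p,
        TM p y b π z v4 v2 i := by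
    intro i _
    rw [h1 i]
    simp only [Finset.mul_sum]
    rfl
  rw [Finset.sum_congr rfl h4, Finset.sum_comm]
  refine Finset.sum_congr rfl fun z _ => ?_
  rw [Finset.sum_comm]
  refine Finset.sum_congr rfl fun v4 _ => ?_
  rw [Finset.sum_comm]

/-- the bound for one `(π, z, v4, v2)` -/
lemma one_term (p : Par) (U : Finset Ix) (b : ℕ) (y : Gi) (hS : Siz p U b y) (C1 d dr : ℝ)
    (hC1 : 0 ≤ C1) (hd : 0 ≤ d) (hdr : 0 ≤ dr) (hdr2 : dr ≤ 1 / 2)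
    (hU : ∀ i ∈ U, ChiG (i.1 : Gi) i.2.1) (hchi : ∀ i ∈ U, ∀ v, ‖i.2.1 v‖ ≤ 1)
    (hVS : 0 ≤ VS b (PS p.w)) (hGG : ∀ i ∈ U, ‖GG p i b‖ ≤ VS b (PS p.w))
    (hVP : 0 < VP p.w) (π z : Gi) (v4 v2 : ℕ)
    (hπ : π ∈ GP p.P (2 * p.P)) (hz : z ∈ GP (p.K / nm y) (2 * (p.K / nm y)))
    (hv4 : v4 ∈ I4 p) (hv2 : v2 ∈ I2 p)
    (hLIN : ∀ i ∈ U, ‖LL p i (y * z * π) b (v4 + v2) -
      ((rad p y π (⌊p.h * Real.log (nm z)⌋₊ + v4 + v2) / (2 * p.h * nm (y * z * π)) : ℝ) : ℂ) *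
        GG p i b * psi i (y * z * π) *
        Complex.exp (-(Complex.I * i.2.2 * b / (rad p y π (⌊p.h * Real.log (nm z)⌋₊ + v4 + v2) : ℝ)))‖ ≤
      d * (rad p y π (⌊p.h * Real.log (nm z)⌋₊ + v4 + v2) / (p.h * nm (y * z * π))) * VS b (PS p.w))
    (hA : ∑ i ∈ U, ‖S4 p i v4‖ * ‖S2 p i v2‖ ≤ C1 * p.M4 * p.M2 / (p.h * Real.log p.N) ^ 2)
    (hB : ∑ i ∈ U, ‖cc p i v4 v2‖ ≤ C1 * p.M4 * p.M2 / (p.h * Real.log p.N ^ 2 *
      (Real.exp (((v4 + v2 : ℕ) : ℝ) / p.h) * VP p.w)))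
    (hR : |RR p (v4 + v2) * p.h /
      (Real.pi * Real.exp (((v4 + v2 : ℕ) : ℝ) / p.h) * VP p.w) - 1| ≤ dr) :
    ∑ i ∈ U, ‖cc p i v4 v2 * LL p i (y * z * π) b (v4 + v2) - TM p y b π z v4 v2 i‖ ≤
      8 * C1 * (d + dr + 1 / p.h) * (VS b (PS p.w) * p.M4 * p.M2 /
        (p.h ^ 2 * Real.log p.N ^ 2 * VP p.w * p.N)) := by
  have hN : (0 : ℝ) < p.N := lt_of_lt_of_le (by norm_num) hS.N1
  have hh : (0 : ℝ) < p.h := lt_of_lt_of_le (by norm_num) hS.h1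
  have hl : (0 : ℝ) < Real.log p.N := lt_of_lt_of_le (by norm_num) hS.l1
  have hM4 : (0 : ℝ) ≤ p.M4 := (Real.rpow_nonneg hN.le _).trans hS.M41
  have hM2 : (0 : ℝ) ≤ p.M2 := (Real.rpow_nonneg hN.le _).trans hS.M21
  have hpi := Real.pi_pos
  obtain ⟨hcu, -, hce1, hce2⟩ := hS.ce z hz
  obtain ⟨hra1, -⟩ := hS.ra π hπ _ hcu v4 hv4 v2 hv2
  obtain ⟨-, -, -, hnm, hnm0⟩ := hS.om π hπ z hz
  generalize hr : rad p y π (⌊p.h * Real.log (nm z)⌋₊ + v4 + v2) = r at *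
  have hr0 : 0 < r := lt_of_lt_of_le (by positivity) hra1
  have hnmR : (0 : ℝ) < (nm (y * z * π) : ℝ) := by exact_mod_cast hnm0
  have hnm1 : (0 : ℝ) < (nm y : ℝ) * nm z * nm π := by rw [← hnm]; exact hnmR
  have hnz : (0 : ℝ) < (nm z : ℝ) := nm_posR (GP_ne_zero hz)
  have hω0 : y * z * π ≠ 0 := by
    intro h0
    rw [h0] at hnm0
    simp at hnm0
  -- the square of the radius
  generalize hE : Real.exp (((v4 + v2 : ℕ) : ℝ) / p.h) = E at *
  have hE0 : 0 < E := by rw [← hE]; exact Real.exp_pos _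
  generalize hu : Real.exp ((⌊p.h * Real.log (nm z)⌋₊ : ℝ) / p.h) = eu at *
  have heu0 : 0 < eu := by rw [← hu]; exact Real.exp_pos _
  have hr2 : r ^ 2 = (nm y : ℝ) * nm π * (eu * E) := by
    rw [← hr, ← hu, ← hE]
    unfold rad
    rw [Real.sq_sqrt (by positivity), ← Real.exp_add]
    congr 2
    push_cast
    ring
  have hq1 : r ^ 2 ≤ (nm (y * z * π) : ℝ) * E := by
    rw [hr2, hnm]
    have : (nm y : ℝ) * nm π * (eu * E) = ((nm y : ℝ) * nm π * E) * eu := by ring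
    rw [this]
    have h2 : (nm y : ℝ) * nm z * nm π * E = ((nm y : ℝ) * nm π * E) * nm z := by ring
    rw [h2]
    exact mul_le_mul_of_nonneg_left hce1 (by positivity)
  have hq2 : (nm (y * z * π) : ℝ) * E * (1 - 1 / p.h) ≤ r ^ 2 := by
    have h1 : 1 - 1 / p.h ≤ Real.exp (-(1 / p.h)) := by
      have := Real.add_one_le_exp (-(1 / p.h))
      linarith
    have h3 : (nm z : ℝ) * Real.exp (-(1 / p.h)) ≤ eu := by
      calc (nm z : ℝ) * Real.exp (-(1 / p.h)) ≤ (eu * Real.exp (1 / p.h)) * Real.exp (-(1 / p.h)) :=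
            mul_le_mul_of_nonneg_right hce2 (Real.exp_pos _).le
        _ = eu := by rw [mul_assoc, ← Real.exp_add]; simp
    calc (nm (y * z * π) : ℝ) * E * (1 - 1 / p.h)
        ≤ (nm (y * z * π) : ℝ) * E * Real.exp (-(1 / p.h)) :=
          mul_le_mul_of_nonneg_left h1 (by positivity)
      _ = ((nm y : ℝ) * nm π * E) * ((nm z : ℝ) * Real.exp (-(1 / p.h))) := by rw [hnm]; ring
      _ ≤ ((nm y : ℝ) * nm π * E) * eu := mul_le_mul_of_nonneg_left h3 (by positivity)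
      _ = r ^ 2 := by rw [hr2]; ring
  -- the number of rough elements
  obtain ⟨ρ, hρ⟩ : ∃ ρ, ρ = RR p (v4 + v2) * p.h / (Real.pi * E * VP p.w) := ⟨_, rfl⟩
  rw [← hρ] at hR
  have hρ1 : 1 / 2 ≤ ρ := by
    have := abs_le.1 hR
    linarith [this.1]
  have hρ0 : 0 < ρ := lt_of_lt_of_le (by norm_num) hρ1
  have hRR : RR p (v4 + v2) = ρ * (Real.pi * E * VP p.w) / p.h := by
    rw [hρ]
    field_simp
  have hRR0 : 0 < RR p (v4 + v2) := by rw [hRR]; positivity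
  -- the coefficients
  have hcoef : |r / (2 * p.h * nm (y * z * π)) / RR p (v4 + v2) - 1 / (2 * Real.pi * VP p.w) * (1 / r)| ≤
      8 / (VP p.w * p.N) * (dr + 1 / p.h) := by
    have h1 : r / (2 * p.h * nm (y * z * π)) / RR p (v4 + v2) - 1 / (2 * Real.pi * VP p.w) * (1 / r) =
        1 / (2 * Real.pi * VP p.w * r) * ((r ^ 2 / (nm (y * z * π) * E) - ρ) / ρ) := by
      rw [hRR]
      field_simp
    have h2 : |(r ^ 2 / (nm (y * z * π) * E) - ρ) / ρ| ≤ 2 * (dr + 1 / p.h) := by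
      rw [abs_div, abs_of_pos hρ0, div_le_iff₀ hρ0]
      have h3 : |r ^ 2 / (nm (y * z * π) * E) - ρ| ≤ dr + 1 / p.h := by
        have h4 : r ^ 2 / (nm (y * z * π) * E) ≤ 1 := by
          rw [div_le_one (by positivity)]
          exact hq1
        have h5 : 1 - 1 / p.h ≤ r ^ 2 / (nm (y * z * π) * E) := by
          rw [le_div_iff₀ (by positivity), mul_comm]
          exact hq2
        have h6 := abs_le.1 hR
        rw [abs_le]
        constructor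
        · linarith [h6.1, h6.2]
        · have : 0 ≤ 1 / p.h := by positivity
          linarith [h6.1, h6.2]
      have h7 : 0 ≤ dr + 1 / p.h := by positivity
      nlinarith
    rw [h1, abs_mul, abs_of_pos (show (0 : ℝ) < 1 / (2 * Real.pi * VP p.w * r) by positivity)]
    have h3 : 1 / (2 * Real.pi * VP p.w * r) ≤ 4 / (VP p.w * p.N) := by
      rw [div_le_div_iff₀ (by positivity) (by positivity)]
      have h4 : p.N ≤ 8 * r := by linarith
      have h5 : (3 : ℝ) < Real.pi := Real.pi_gt_three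
      have h6 : VP p.w * p.N ≤ VP p.w * (8 * r) := mul_le_mul_of_nonneg_left h4 hVP.le
      have h7 : VP p.w * r * 3 ≤ VP p.w * r * Real.pi :=
        mul_le_mul_of_nonneg_left h5.le (by positivity)
      nlinarith [mul_pos hVP hr0]
    calc 1 / (2 * Real.pi * VP p.w * r) * |(r ^ 2 / (nm (y * z * π) * E) - ρ) / ρ|
        ≤ 4 / (VP p.w * p.N) * (2 * (dr + 1 / p.h)) :=
          mul_le_mul h3 h2 (abs_nonneg _) (by positivity)
      _ = 8 / (VP p.w * p.N) * (dr + 1 / p.h) := by ring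
  -- the pointwise bound
  have hpt : ∀ i ∈ U, ‖cc p i v4 v2 * LL p i (y * z * π) b (v4 + v2) - TM p y b π z v4 v2 i‖ ≤
      ‖cc p i v4 v2‖ * (d * (r / (p.h * nm (y * z * π))) * VS b (PS p.w)) +
      ‖S4 p i v4‖ * ‖S2 p i v2‖ * (VS b (PS p.w) * (8 / (VP p.w * p.N) * (dr + 1 / p.h))) := by
    intro i hi
    have hψ : psi i (y * z * π) = psi i y * psi i z * psi i π := by
      rw [psi_mul (hU i hi), psi_mul (hU i hi)]
    obtain ⟨e, he⟩ : ∃ e : ℂ, e = Complex.exp (-(Complex.I * i.2.2 * b / (r : ℝ))) := ⟨_, rfl⟩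
    have he1 : ‖e‖ = 1 := by rw [he]; exact norm_e _ _ _
    have hL := hLIN i hi
    rw [← he] at hL
    have hT : TM p y b π z v4 v2 i = S4 p i v4 * S2 p i v2 * GG p i b * psi i (y * z * π) * e *
        ((1 / (2 * Real.pi * VP p.w) * (1 / r) : ℝ) : ℂ) := by
      unfold TM
      rw [hr, ← he, hψ]
      push_cast
      ring
    have hM : cc p i v4 v2 * (((r / (2 * p.h * nm (y * z * π)) : ℝ) : ℂ) * GG p i b *
        psi i (y * z * π) * e) = S4 p i v4 * S2 p i v2 * GG p i b * psi i (y * z * π) * e *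
        ((r / (2 * p.h * nm (y * z * π)) / RR p (v4 + v2) : ℝ) : ℂ) := by
      unfold XP.cc
      push_cast
      ring
    have hdiff : cc p i v4 v2 * LL p i (y * z * π) b (v4 + v2) - TM p y b π z v4 v2 i =
        cc p i v4 v2 * (LL p i (y * z * π) b (v4 + v2) -
          ((r / (2 * p.h * nm (y * z * π)) : ℝ) : ℂ) * GG p i b * psi i (y * z * π) * e) +
        S4 p i v4 * S2 p i v2 * GG p i b * psi i (y * z * π) * e *
          (((r / (2 * p.h * nm (y * z * π)) / RR p (v4 + v2) -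
            1 / (2 * Real.pi * VP p.w) * (1 / r)) : ℝ) : ℂ) := by
      rw [mul_sub, hM, hT, Complex.ofReal_sub]
      ring
    rw [hdiff]
    refine (norm_add_le _ _).trans (add_le_add ?_ ?_)
    · rw [norm_mul]
      exact mul_le_mul_of_nonneg_left hL (norm_nonneg _)
    · rw [norm_mul, norm_mul, norm_mul, norm_mul, norm_mul, he1, mul_one, Complex.norm_real,
        Real.norm_eq_abs]
      have h1 : ‖S4 p i v4‖ * ‖S2 p i v2‖ * ‖GG p i b‖ * ‖psi i (y * z * π)‖ ≤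
          ‖S4 p i v4‖ * ‖S2 p i v2‖ * VS b (PS p.w) * 1 := by
        refine mul_le_mul ?_ (psi_le (hchi i hi) hω0) (norm_nonneg _) (by positivity)
        exact mul_le_mul_of_nonneg_left (hGG i hi) (by positivity)
      calc ‖S4 p i v4‖ * ‖S2 p i v2‖ * ‖GG p i b‖ * ‖psi i (y * z * π)‖ *
            |r / (2 * p.h * nm (y * z * π)) / RR p (v4 + v2) - 1 / (2 * Real.pi * VP p.w) * (1 / r)|
          ≤ (‖S4 p i v4‖ * ‖S2 p i v2‖ * VS b (PS p.w) * 1) *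
            (8 / (VP p.w * p.N) * (dr + 1 / p.h)) :=
            mul_le_mul h1 hcoef (abs_nonneg _) (by positivity)
        _ = _ := by ring
  refine (Finset.sum_le_sum hpt).trans ?_
  rw [Finset.sum_add_distrib, ← Finset.sum_mul, ← Finset.sum_mul]
  have hk1 : (∑ i ∈ U, ‖cc p i v4 v2‖) * (d * (r / (p.h * nm (y * z * π))) * VS b (PS p.w)) ≤
      8 * C1 * d * (VS b (PS p.w) * p.M4 * p.M2 /
        (p.h ^ 2 * Real.log p.N ^ 2 * VP p.w * p.N)) := by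
    have h1 : r / (nm (y * z * π) * E) ≤ 8 / p.N := by
      rw [div_le_div_iff₀ (by positivity) hN]
      have h2 : r * p.N ≤ r * (8 * r) := mul_le_mul_of_nonneg_left (by linarith) hr0.le
      nlinarith
    calc (∑ i ∈ U, ‖cc p i v4 v2‖) * (d * (r / (p.h * nm (y * z * π))) * VS b (PS p.w))
        ≤ (C1 * p.M4 * p.M2 / (p.h * Real.log p.N ^ 2 * (E * VP p.w))) *
          (d * (r / (p.h * nm (y * z * π))) * VS b (PS p.w)) :=
          mul_le_mul_of_nonneg_right hB (by positivity)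
      _ = (C1 * d * (VS b (PS p.w) * p.M4 * p.M2 / (p.h ^ 2 * Real.log p.N ^ 2 * VP p.w))) *
          (r / (nm (y * z * π) * E)) := by
          field_simp
      _ ≤ (C1 * d * (VS b (PS p.w) * p.M4 * p.M2 / (p.h ^ 2 * Real.log p.N ^ 2 * VP p.w))) *
          (8 / p.N) := mul_le_mul_of_nonneg_left h1 (by positivity)
      _ = _ := by
          field_simp
  have hk2 : (∑ i ∈ U, ‖S4 p i v4‖ * ‖S2 p i v2‖) *
      (VS b (PS p.w) * (8 / (VP p.w * p.N) * (dr + 1 / p.h))) ≤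
      8 * C1 * (dr + 1 / p.h) * (VS b (PS p.w) * p.M4 * p.M2 /
        (p.h ^ 2 * Real.log p.N ^ 2 * VP p.w * p.N)) := by
    calc (∑ i ∈ U, ‖S4 p i v4‖ * ‖S2 p i v2‖) *
          (VS b (PS p.w) * (8 / (VP p.w * p.N) * (dr + 1 / p.h)))
        ≤ (C1 * p.M4 * p.M2 / (p.h * Real.log p.N) ^ 2) *
          (VS b (PS p.w) * (8 / (VP p.w * p.N) * (dr + 1 / p.h))) :=
          mul_le_mul_of_nonneg_right hA (by positivity)
      _ = _ := by
          field_simp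
  calc _ ≤ 8 * C1 * d * (VS b (PS p.w) * p.M4 * p.M2 /
        (p.h ^ 2 * Real.log p.N ^ 2 * VP p.w * p.N)) + 8 * C1 * (dr + 1 / p.h) *
        (VS b (PS p.w) * p.M4 * p.M2 / (p.h ^ 2 * Real.log p.N ^ 2 * VP p.w * p.N)) :=
        add_le_add hk1 hk2
    _ = _ := by ring

/-- the number of the `z₁` -/
lemma card_Z (p : Par) (U : Finset Ix) (b : ℕ) (y : Gi) (hS : Siz p U b y) (C3 : ℝ)
    (hC3 : 0 ≤ C3) (h1 : ix1 ∈ U)
    (hC : ∀ u ∈ I1 p y, ∑ i ∈ U, ‖S1 p y i u‖ ^ 2 ≤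
      (C3 * (p.K / nm y) / (p.h * Real.log p.N)) ^ 2) :
    ((GP (p.K / nm y) (2 * (p.K / nm y))).card : ℝ) ≤ C3 * (p.K / nm y) / Real.log p.N := by
  have hN : (0 : ℝ) < p.N := lt_of_lt_of_le (by norm_num) hS.N1
  have hh : (0 : ℝ) < p.h := lt_of_lt_of_le (by norm_num) hS.h1
  have hl : (0 : ℝ) < Real.log p.N := lt_of_lt_of_le (by norm_num) hS.l1
  have hK : (0 : ℝ) ≤ p.K / nm y := (Real.rpow_nonneg hN.le _).trans hS.K1
  have h2 : (GP (p.K / nm y) (2 * (p.K / nm y))).card = ∑ u ∈ I1 p y,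
      ((GP (p.K / nm y) (2 * (p.K / nm y))).filter
        (fun z => ⌊p.h * Real.log (nm z)⌋₊ = u)).card :=
    Finset.card_eq_sum_card_fiberwise (fun z hz => (hS.ce z hz).1)
  have h3 : ∀ u ∈ I1 p y, ((((GP (p.K / nm y) (2 * (p.K / nm y))).filter
      (fun z => ⌊p.h * Real.log (nm z)⌋₊ = u)).card : ℕ) : ℝ) ≤
      C3 * (p.K / nm y) / (p.h * Real.log p.N) := by
    intro u hu
    have h4 : ‖S1 p y ix1 u‖ ^ 2 ≤ (C3 * (p.K / nm y) / (p.h * Real.log p.N)) ^ 2 :=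
      (Finset.single_le_sum (f := fun i => ‖S1 p y i u‖ ^ 2) (fun i _ => by positivity) h1).trans
        (hC u hu)
    have h5 : ‖S1 p y ix1 u‖ ≤ C3 * (p.K / nm y) / (p.h * Real.log p.N) :=
      le_of_sq_le_sq h4 (by positivity)
    have h6 : S1 p y ix1 u = ((((GP (p.K / nm y) (2 * (p.K / nm y))).filter
        (fun z => ⌊p.h * Real.log (nm z)⌋₊ = u)).card : ℕ) : ℂ) := by
      unfold S1
      rw [Finset.sum_congr rfl fun z _ => psi_ix1 z]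
      simp only [Finset.sum_const, nsmul_eq_mul, mul_one]
      rfl
    rw [h6, Complex.norm_natCast] at h5
    exact h5
  rw [h2]
  push_cast
  refine (Finset.sum_le_sum h3).trans ?_
  rw [Finset.sum_const, nsmul_eq_mul]
  calc ((I1 p y).card : ℝ) * (C3 * (p.K / nm y) / (p.h * Real.log p.N))
      ≤ p.h * (C3 * (p.K / nm y) / (p.h * Real.log p.N)) :=
        mul_le_mul_of_nonneg_right hS.c1 (by positivity)
    _ = C3 * (p.K / nm y) / Real.log p.N := by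
        field_simp

/-- the reduction in one context -/
lemma core (p : Par) (U : Finset Ix) (b : ℕ) (y : Gi) (hS : Siz p U b y) (C1 C3 d dr : ℝ)
    (hC1 : 0 ≤ C1) (hC3 : 0 ≤ C3) (hd : 0 ≤ d) (hdr : 0 ≤ dr) (hdr2 : dr ≤ 1 / 2)
    (h1 : ix1 ∈ U)
    (hU : ∀ i ∈ U, ChiG (i.1 : Gi) i.2.1) (hchi : ∀ i ∈ U, ∀ v, ‖i.2.1 v‖ ≤ 1)
    (hVS : 0 ≤ VS b (PS p.w)) (hGG : ∀ i ∈ U, ‖GG p i b‖ ≤ VS b (PS p.w))
    (hVP : 0 < VP p.w)
    (hEXC : sy p y b (Kap p U) =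
      ∑ π ∈ GP p.P (2 * p.P), ∑ z ∈ GP (p.K / nm y) (2 * (p.K / nm y)),
      ∑ v4 ∈ I4 p, ∑ v2 ∈ I2 p, ∑ i ∈ U, cc p i v4 v2 * LL p i (y * z * π) b (v4 + v2))
    (hLIN : ∀ i ∈ U, ∀ π ∈ GP p.P (2 * p.P),
      ∀ z ∈ GP (p.K / nm y) (2 * (p.K / nm y)), ∀ v4 ∈ I4 p, ∀ v2 ∈ I2 p,
      ‖LL p i (y * z * π) b (v4 + v2) -
      ((rad p y π (⌊p.h * Real.log (nm z)⌋₊ + v4 + v2) / (2 * p.h * nm (y * z * π)) : ℝ) : ℂ) *
        GG p i b * psi i (y * z * π) *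
        Complex.exp (-(Complex.I * i.2.2 * b / (rad p y π (⌊p.h * Real.log (nm z)⌋₊ + v4 + v2) : ℝ)))‖ ≤
      d * (rad p y π (⌊p.h * Real.log (nm z)⌋₊ + v4 + v2) / (p.h * nm (y * z * π))) * VS b (PS p.w))
    (hCC : ∀ v4 ∈ I4 p, ∀ v2 ∈ I2 p,
      ∑ i ∈ U, ‖S4 p i v4‖ * ‖S2 p i v2‖ ≤ C1 * p.M4 * p.M2 / (p.h * Real.log p.N) ^ 2 ∧
      ∑ i ∈ U, ‖cc p i v4 v2‖ ≤ C1 * p.M4 * p.M2 / (p.h * Real.log p.N ^ 2 *
        (Real.exp (((v4 + v2 : ℕ) : ℝ) / p.h) * VP p.w)))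
    (hR : ∀ v4 ∈ I4 p, ∀ v2 ∈ I2 p, |RR p (v4 + v2) * p.h /
      (Real.pi * Real.exp (((v4 + v2 : ℕ) : ℝ) / p.h) * VP p.w) - 1| ≤ dr)
    (hC : ∀ u ∈ I1 p y, ∑ i ∈ U, ‖S1 p y i u‖ ^ 2 ≤
      (C3 * (p.K / nm y) / (p.h * Real.log p.N)) ^ 2) :
    ‖sy p y b (Kap p U) - ((1 / (2 * Real.pi * VP p.w) : ℝ) : ℂ) *
      ∑ π ∈ GP p.P (2 * p.P), ∑ i ∈ U, psi i y * psi i π * (GG p i b * TT p y π b i)‖ ≤
    8 * C1 * C3 * (d + dr + 1 / p.h) * XX p y b := by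
  have hN : (0 : ℝ) < p.N := lt_of_lt_of_le (by norm_num) hS.N1
  have hh : (0 : ℝ) < p.h := lt_of_lt_of_le (by norm_num) hS.h1
  have hl : (0 : ℝ) < Real.log p.N := lt_of_lt_of_le (by norm_num) hS.l1
  have hM4 : (0 : ℝ) ≤ p.M4 := (Real.rpow_nonneg hN.le _).trans hS.M41
  have hM2 : (0 : ℝ) ≤ p.M2 := (Real.rpow_nonneg hN.le _).trans hS.M21
  have hK : (0 : ℝ) ≤ p.K / nm y := (Real.rpow_nonneg hN.le _).trans hS.K1
  obtain ⟨B0, hB0⟩ : ∃ B0, B0 = 8 * C1 * (d + dr + 1 / p.h) * (VS b (PS p.w) * p.M4 * p.M2 /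
        (p.h ^ 2 * Real.log p.N ^ 2 * VP p.w * p.N)) := ⟨_, rfl⟩
  have hB00 : 0 ≤ B0 := by rw [hB0]; positivity
  rw [hEXC, expand p U b y hS]
  simp only [← Finset.sum_sub_distrib]
  have hsum : ‖∑ π ∈ GP p.P (2 * p.P), ∑ z ∈ GP (p.K / nm y) (2 * (p.K / nm y)),
      ∑ v4 ∈ I4 p, ∑ v2 ∈ I2 p, ∑ i ∈ U, (cc p i v4 v2 * LL p i (y * z * π) b (v4 + v2) -
        TM p y b π z v4 v2 i)‖ ≤
      ∑ _π ∈ GP p.P (2 * p.P), ∑ _z ∈ GP (p.K / nm y) (2 * (p.K / nm y)),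
      ∑ _v4 ∈ I4 p, ∑ _v2 ∈ I2 p, B0 := by
    refine (norm_sum_le _ _).trans (Finset.sum_le_sum fun π hπ => ?_)
    refine (norm_sum_le _ _).trans (Finset.sum_le_sum fun z hz => ?_)
    refine (norm_sum_le _ _).trans (Finset.sum_le_sum fun v4 hv4 => ?_)
    refine (norm_sum_le _ _).trans (Finset.sum_le_sum fun v2 hv2 => ?_)
    refine (norm_sum_le _ _).trans ?_
    rw [hB0]
    exact one_term p U b y hS C1 d dr hC1 hd hdr hdr2 hU hchi hVS hGG hVP π z v4 v2 hπ hz hv4 hv2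
      (fun i hi => hLIN i hi π hπ z hz v4 hv4 v2 hv2) (hCC v4 hv4 v2 hv2).1 (hCC v4 hv4 v2 hv2).2
      (hR v4 hv4 v2 hv2)
  refine hsum.trans ?_
  simp only [Finset.sum_const, nsmul_eq_mul]
  have hz := card_Z p U b y hS C3 hC3 h1 hC
  calc ((GP p.P (2 * p.P)).card : ℝ) * (((GP (p.K / nm y) (2 * (p.K / nm y))).card : ℝ) *
        (((I4 p).card : ℝ) * (((I2 p).card : ℝ) * B0)))
      ≤ ((GP p.P (2 * p.P)).card : ℝ) * ((C3 * (p.K / nm y) / Real.log p.N) *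
        (p.h * (p.h * B0))) := by
        refine mul_le_mul_of_nonneg_left ?_ (by positivity)
        refine mul_le_mul hz ?_ (by positivity) (by positivity)
        refine mul_le_mul hS.c4 ?_ (by positivity) (by positivity)
        exact mul_le_mul_of_nonneg_right hS.c2 hB00
    _ = 8 * C1 * C3 * (d + dr + 1 / p.h) * XX p y b := by
        rw [hB0]
        unfold XX Z0
        field_simp

end REDM

open REDM in
theorem specRED (hEXC : SpecEXC) (hLIN : SpecLIN) (hCCB : SpecCCB) (hRRA : SpecRRA)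
    (hSIZ : SpecSIZ) (hCE3 : SpecCE3) (hHGT : SpecHGT) (hLSM : XL.SpecLSM) (hCHB : XL.SpecCHB) :
    SpecRED := by
  intro δ hδ
  obtain ⟨C1, hC1, hCC⟩ := hCCB
  obtain ⟨C3, hC3, hCE⟩ := hCE3
  obtain ⟨-, -, -, hC, -, c, hc, hE⟩ := hLSM
  obtain ⟨e, he⟩ : ∃ e, e = min (1 / 2) (δ / (24 * C1 * C3)) := ⟨_, rfl⟩
  have he0 : 0 < e := by rw [he]; positivity
  have he1 : e ≤ 1 / 2 := by rw [he]; exact min_le_left _ _
  have he2 : 24 * C1 * C3 * e ≤ δ := by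
    have h1 : e ≤ δ / (24 * C1 * C3) := by rw [he]; exact min_le_right _ _
    rw [le_div_iff₀ (by positivity)] at h1
    linarith
  have hall := ((((((hLIN e he0).and hCC).and (hRRA e he0)).and hSIZ).and hCE).and
    (hHGT (1 / e))).and EV.uok
  refine hall.mono ?_
  rintro p B U b y ⟨⟨⟨⟨⟨⟨kLIN, kCC⟩, kRR⟩, kS⟩, kCE⟩, kH⟩, kU⟩
  have hh : (0 : ℝ) < p.h := lt_of_lt_of_le (by norm_num) kS.h1
  have hVS : 0 < VS b (PS p.w) := (hE b p.w kS.w1).2.1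
  have hGG : ∀ i ∈ U, ‖GG p i b‖ ≤ VS b (PS p.w) := by
    intro i hi
    have h1 := (hC i.1 i.2.1 b p.w (kU.2 i hi).1 (le_trans zero_le_one kS.w1) (kU.2 i hi).2.1).1
    unfold GG
    rw [norm_mul, Complex.norm_real, Real.norm_eq_abs, abs_of_nonneg (VQ_nonneg _ _ _), mul_comm]
    exact h1
  have hmain := core p U b y kS C1 C3 e e hC1.le hC3.le he0.le he0.le he1 kU.1
    (fun i hi => (kU.2 i hi).2.1)
    (fun i hi => (hCHB i.1 i.2.1 (kU.2 i hi).1 (kU.2 i hi).2.1).2.2)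
    hVS.le hGG kRR.1 (hEXC p U b y) kLIN kCC kRR.2.2 kCE.1
  refine hmain.trans ?_
  have hXX : 0 ≤ XX p y b := by
    have hN : (0 : ℝ) < p.N := lt_of_lt_of_le (by norm_num) kS.N1
    have hl : (0 : ℝ) < Real.log p.N := lt_of_lt_of_le (by norm_num) kS.l1
    have hM4 : (0 : ℝ) ≤ p.M4 := (Real.rpow_nonneg hN.le _).trans kS.M41
    have hM2 : (0 : ℝ) ≤ p.M2 := (Real.rpow_nonneg hN.le _).trans kS.M21
    have hK : (0 : ℝ) ≤ p.K / nm y := (Real.rpow_nonneg hN.le _).trans kS.K1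
    have hVP := kRR.1
    unfold XX Z0
    positivity
  refine mul_le_mul_of_nonneg_right ?_ hXX
  have h1 : 1 / p.h ≤ e := by
    rw [div_le_iff₀ hh]
    rw [div_le_iff₀ he0] at kH
    linarith
  have h2 : 8 * C1 * C3 * (e + e + 1 / p.h) ≤ 8 * C1 * C3 * (e + e + e) :=
    mul_le_mul_of_nonneg_left (by linarith) (by positivity)
  linarith

end Pool.Agent.Lib.MP391708.XPM
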