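import Pool.Agent.Lib.MP_391708_nt.XP.SpecMT
import Pool.Agent.Lib.MP_391708_nt.X.MT.SIZ

/-!
# THEOREM X+ (MP_391708), part MT: SIZ, the sizes (after the module SIZ of X/MT by helper86)
-/

set_option autoImplicit false

namespace Pool.Agent.Lib.MP391708.XPM

open Finset Filter Topology Pool.Agent.Lib.MP391708.MR
open Pool.Agent.Lib.MP391708.X (ChiG hk Dist Fam rgh VP Ix psi ix1 UOK lc On)
open Pool.Agent.Lib.MP391708.XP
open Pool.Agent.Lib.MP391708.XL (gg VQ VS PS)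
open Pool.Agent.Lib.MP391708.XM.SIZM (prim_mul prim_of_prime nm_eq_of_dvd coprime_of_rough vv_lo vv_hi vv_card
  exp_lo exp_hi ev_pow)
open scoped ComplexConjugate

namespace SIZM

/-! ## The outer point -/

section core

variable {p : Par} {U : Finset Ix} {b : ℕ} {y : Gi} {Q : ℝ}

/-- `om` -/
lemma om_core (hw : p.w ≤ p.P) (hQ : Q ≤ p.P) (hQ2 : Q ^ 2 ≤ p.w) (hQ0 : 0 ≤ Q) (hy : prim y)
    (hyP : (nm y : ℝ) ≤ p.P) (hK : 2 * p.P ≤ p.K / nm y)
    (hU : ∀ i ∈ U, 1 ≤ i.1 ∧ (i.1 : ℝ) ≤ Q)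
    (hr : ∀ π : Gi, Prime π → π ∣ y → p.w < (nm π : ℝ))
    {π z : Gi} (hπ : π ∈ GP p.P (2 * p.P)) (hz : z ∈ GP (p.K / nm y) (2 * (p.K / nm y))) :
    prim (y * z * π) ∧ rgh p.w (y * z * π) ∧ (∀ i ∈ U, Nat.Coprime (nm (y * z * π)) i.1) ∧
    (nm (y * z * π) : ℝ) = nm y * nm z * nm π ∧ 0 < nm (y * z * π) := by
  obtain ⟨_, _, pπ, _, lπ, uπ⟩ := mem_GP.1 hπ
  obtain ⟨_, _, pz, _, lz, _⟩ := mem_GP.1 hz
  have hy0 : y ≠ 0 := prim_ne_zero hy
  have ny : 0 < nm y := nm_pos hy0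
  have hP0 : 0 < p.P := lt_of_lt_of_le (by exact_mod_cast ny) hyP
  have e1 : nm (y * z * π) = nm y * nm z * nm π := by rw [nm_mul, nm_mul]
  have c1 : Nat.Coprime (nm y) (nm z) := by
    refine Nat.Coprime.symm ((Nat.Prime.coprime_iff_not_dvd pz).2 ?_)
    intro hd
    have h1 : (nm z : ℝ) ≤ nm y := by exact_mod_cast Nat.le_of_dvd ny hd
    linarith
  have c2 : Nat.Coprime (nm (y * z)) (nm π) := by
    rw [nm_mul]
    refine Nat.Coprime.mul_left ?_ ?_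
    · refine Nat.Coprime.symm ((Nat.Prime.coprime_iff_not_dvd pπ).2 ?_)
      intro hd
      have h1 : (nm π : ℝ) ≤ nm y := by exact_mod_cast Nat.le_of_dvd ny hd
      linarith
    · rw [Nat.coprime_primes pz pπ]
      intro he
      have h1 : (nm z : ℝ) = nm π := by exact_mod_cast he
      linarith
  refine ⟨prim_mul (prim_mul hy (prim_of_prime pz) c1) (prim_of_prime pπ) c2, ?_, ?_, ?_, ?_⟩
  · intro ρ hρ hd
    rcases hρ.dvd_or_dvd hd with h1 | h1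
    · rcases hρ.dvd_or_dvd h1 with h2 | h2
      · exact hr ρ hρ h2
      · rw [nm_eq_of_dvd hρ pz h2]; linarith
    · rw [nm_eq_of_dvd hρ pπ h1]; linarith
  · intro i hi
    obtain ⟨hi1, hiQ⟩ := hU i hi
    rw [e1]
    refine Nat.Coprime.mul_left (Nat.Coprime.mul_left ?_ ?_) ?_
    · exact coprime_of_rough hy0 hQ0 (fun ρ hρ hd => lt_of_le_of_lt hQ2 (hr ρ hρ hd)) hi1 hiQ
    · refine (Nat.Prime.coprime_iff_not_dvd pz).2 ?_
      intro hd
      have h1 : (nm z : ℝ) ≤ i.1 := by exact_mod_cast Nat.le_of_dvd hi1 hd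
      linarith
    · refine (Nat.Prime.coprime_iff_not_dvd pπ).2 ?_
      intro hd
      have h1 : (nm π : ℝ) ≤ i.1 := by exact_mod_cast Nat.le_of_dvd hi1 hd
      linarith
  · rw [e1]; push_cast; ring
  · rw [e1]
    have := pz.pos
    have := pπ.pos
    positivity

/-- `ce` -/
lemma ce_core (hh : 0 < p.h) (hK : 1 ≤ p.K / nm y) {z : Gi}
    (hz : z ∈ GP (p.K / nm y) (2 * (p.K / nm y))) : ⌊p.h * Real.log (nm z)⌋₊ ∈ I1 p y ∧
    z ∈ cell p.h (p.K / nm y) (2 * (p.K / nm y)) ⌊p.h * Real.log (nm z)⌋₊ ∧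
    Real.exp ((⌊p.h * Real.log (nm z)⌋₊ : ℝ) / p.h) ≤ nm z ∧
    (nm z : ℝ) ≤ Real.exp ((⌊p.h * Real.log (nm z)⌋₊ : ℝ) / p.h) * Real.exp (1 / p.h) := by
  obtain ⟨_, _, pz, _, lz, uz⟩ := mem_GP.1 hz
  have hz0 : (0 : ℝ) < nm z := by exact_mod_cast pz.pos
  have hz1 : (1 : ℝ) ≤ nm z := by linarith
  have hl0 : 0 ≤ p.h * Real.log (nm z) := mul_nonneg hh.le (Real.log_nonneg hz1)
  refine ⟨?_, ?_, ?_, ?_⟩
  · unfold I1 VV
    rw [mem_Icc]
    constructor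
    · refine Nat.floor_le_floor ?_
      exact mul_le_mul_of_nonneg_left (Real.log_le_log (by linarith) lz.le) hh.le
    · refine Nat.floor_le_floor ?_
      exact mul_le_mul_of_nonneg_left (Real.log_le_log hz0 uz) hh.le
  · unfold cell
    rw [mem_filter]
    exact ⟨hz, rfl⟩
  · have h1 : ((⌊p.h * Real.log (nm z)⌋₊ : ℝ)) / p.h ≤ Real.log (nm z) := by
      rw [div_le_iff₀ hh]
      have := Nat.floor_le hl0
      linarith
    calc _ ≤ Real.exp (Real.log (nm z)) := Real.exp_le_exp.2 h1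
      _ = nm z := Real.exp_log hz0
  · rw [← Real.exp_add, ← add_div]
    have h1 : Real.log (nm z) ≤ ((⌊p.h * Real.log (nm z)⌋₊ : ℝ) + 1) / p.h := by
      rw [le_div_iff₀ hh]
      have := Nat.lt_floor_add_one (p.h * Real.log (nm z))
      linarith
    calc (nm z : ℝ) = Real.exp (Real.log (nm z)) := (Real.exp_log hz0).symm
      _ ≤ _ := Real.exp_le_exp.2 h1

/-- the product of the sizes -/
lemma prod_core (hT : 0 < p.T) (hP : 0 < p.P) (hM : 0 < p.M4) :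
    16 * p.K * p.P * p.M4 * p.M2 = p.N ^ 2 := by
  have hM' : 0 < p.M := hM
  unfold Par.K Par.M4 Par.M2
  field_simp

/-- `M4 M2 = N T/(16 P)` -/
lemma mm_core (hP : 0 < p.P) (hM : 0 < p.M4) : p.M4 * p.M2 = p.N * p.T / (16 * p.P) := by
  have hM' : 0 < p.M := hM
  unfold Par.M4 Par.M2
  field_simp

/-- `ra` -/
lemma ra_core (hh : 100 ≤ p.h) (hN : 0 < p.N) (hP : 0 < p.P) (hT : 0 < p.T) (hny : 0 < nm y)
    (hK : 1 ≤ p.K / nm y) (h4 : 1 ≤ p.M4) (h2 : 1 ≤ p.M2) {π : Gi}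
    (hπ : π ∈ GP p.P (2 * p.P)) {u v4 v2 : ℕ} (hu : u ∈ I1 p y) (hv4 : v4 ∈ I4 p)
    (hv2 : v2 ∈ I2 p) :
    p.N / 8 ≤ rad p y π (u + v4 + v2) ∧ rad p y π (u + v4 + v2) ≤ 2 * p.N := by
  obtain ⟨_, _, pπ, _, lπ, uπ⟩ := mem_GP.1 hπ
  have hh0 : 0 < p.h := by linarith
  have hnyR : (0 : ℝ) < nm y := by exact_mod_cast hny
  have hπR : (0 : ℝ) < nm π := by exact_mod_cast pπ.pos
  have lu := vv_lo hh0 hK hu
  have uu := vv_hi hh0 hK hu
  have l4 := vv_lo hh0 h4 hv4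
  have u4 := vv_hi hh0 h4 hv4
  have l2 := vv_lo hh0 h2 hv2
  have u2 := vv_hi hh0 h2 hv2
  have he := exp_lo hh
  set E : ℝ := Real.exp (-(1 / p.h)) with hE
  have hE0 : 0 < E := Real.exp_pos _
  have hexp : Real.exp (((u + v4 + v2 : ℕ) : ℝ) / p.h) =
      Real.exp ((u : ℝ) / p.h) * Real.exp ((v4 : ℝ) / p.h) * Real.exp ((v2 : ℝ) / p.h) := by
    rw [← Real.exp_add, ← Real.exp_add]
    congr 1
    push_cast
    ring
  have hprod := prod_core hT hP (by linarith)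
  have hKy : p.K / nm y * nm y = p.K := by field_simp
  have hK0 : 0 < p.K / nm y := by linarith
  have h40 : 0 < p.M4 := by linarith
  have h20 : 0 < p.M2 := by linarith
  -- lower bound
  have low : p.N ^ 2 / 16 * (9 / 10) ≤
      (nm y : ℝ) * nm π * Real.exp (((u + v4 + v2 : ℕ) : ℝ) / p.h) := by
    rw [hexp]
    have a1 : (p.K / nm y * E) * (p.M4 * E) * (p.M2 * E) ≤
        Real.exp ((u : ℝ) / p.h) * Real.exp ((v4 : ℝ) / p.h) * Real.exp ((v2 : ℝ) / p.h) := by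
      gcongr
    have a2 : (nm y : ℝ) * p.P * ((p.K / nm y * E) * (p.M4 * E) * (p.M2 * E)) ≤
        (nm y : ℝ) * nm π * (Real.exp ((u : ℝ) / p.h) * Real.exp ((v4 : ℝ) / p.h) *
          Real.exp ((v2 : ℝ) / p.h)) := by
      gcongr
    have a3 : (nm y : ℝ) * p.P * ((p.K / nm y * E) * (p.M4 * E) * (p.M2 * E)) =
        (p.N ^ 2 / 16) * E ^ 3 := by
      rw [← hprod]
      calc _ = (p.K / nm y * nm y) * p.P * p.M4 * p.M2 * E ^ 3 := by ring
        _ = _ := by rw [hKy]; ring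
    have a4 : p.N ^ 2 / 16 * (9 / 10) ≤ p.N ^ 2 / 16 * E ^ 3 := by
      gcongr
    linarith
  have upp : (nm y : ℝ) * nm π * Real.exp (((u + v4 + v2 : ℕ) : ℝ) / p.h) ≤ p.N ^ 2 := by
    rw [hexp]
    have a2 : (nm y : ℝ) * nm π * (Real.exp ((u : ℝ) / p.h) * Real.exp ((v4 : ℝ) / p.h) *
          Real.exp ((v2 : ℝ) / p.h)) ≤
        (nm y : ℝ) * (2 * p.P) * ((2 * (p.K / nm y)) * (2 * p.M4) * (2 * p.M2)) := by
      gcongr
    have a3 : (nm y : ℝ) * (2 * p.P) * ((2 * (p.K / nm y)) * (2 * p.M4) * (2 * p.M2)) = p.N ^ 2 := by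
      rw [← hprod]
      calc _ = 16 * (p.K / nm y * nm y) * p.P * p.M4 * p.M2 := by ring
        _ = _ := by rw [hKy]
    linarith
  unfold rad
  constructor
  · refine Real.le_sqrt_of_sq_le ?_
    have h5 : 0 < p.N ^ 2 := by positivity
    nlinarith
  · refine Real.sqrt_le_iff.2 ⟨by linarith, ?_⟩
    have h5 : 0 < p.N ^ 2 := by positivity
    nlinarith

/-- `jj` -/
lemma jj_core (hh : 100 ≤ p.h) (hN : 0 < p.N) (hP : 0 < p.P) (hPT : 1000 * p.P ≤ p.T)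
    (h4 : 1 ≤ p.M4) (h2 : 1 ≤ p.M2)
    (hnT : 4 * p.M4 * p.M2 * Real.exp (2 / p.h) ≤ p.N * p.T) {v4 v2 : ℕ} (hv4 : v4 ∈ I4 p)
    (hv2 : v2 ∈ I2 p) : p.N / 20 ≤ Real.exp (((v4 + v2 : ℕ) : ℝ) / p.h) ∧
    Real.exp ((((v4 + v2 : ℕ) : ℝ) + 1) / p.h) ≤ p.N * p.T := by
  have hh0 : 0 < p.h := by linarith
  have l4 := vv_lo hh0 h4 hv4
  have u4 := vv_hi hh0 h4 hv4
  have l2 := vv_lo hh0 h2 hv2
  have u2 := vv_hi hh0 h2 hv2
  have he := exp_lo hh
  have h40 : 0 < p.M4 := by linarith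
  have h20 : 0 < p.M2 := by linarith
  have hE1 : Real.exp (-(1 / p.h)) ≤ 1 := by
    rw [Real.exp_le_one_iff]
    have : 0 < 1 / p.h := by positivity
    linarith
  set E : ℝ := Real.exp (-(1 / p.h)) with hE
  have hE0 : 0 < E := Real.exp_pos _
  have hexp : Real.exp (((v4 + v2 : ℕ) : ℝ) / p.h) =
      Real.exp ((v4 : ℝ) / p.h) * Real.exp ((v2 : ℝ) / p.h) := by
    rw [← Real.exp_add]
    congr 1
    push_cast
    ring
  constructor
  · rw [hexp]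
    have a1 : (p.M4 * E) * (p.M2 * E) ≤
        Real.exp ((v4 : ℝ) / p.h) * Real.exp ((v2 : ℝ) / p.h) := by gcongr
    have a2 : (p.M4 * E) * (p.M2 * E) = p.M4 * p.M2 * E ^ 2 := by ring
    have a3 : 9 / 10 ≤ E ^ 2 := by
      have : E ^ 3 ≤ E ^ 2 := pow_le_pow_of_le_one hE0.le hE1 (by norm_num)
      linarith
    have a4 : p.N ≤ p.M4 * p.M2 := by
      rw [mm_core hP h40, le_div_iff₀ (by positivity)]
      nlinarith
    have a5 : p.N * (9 / 10) ≤ p.M4 * p.M2 * E ^ 2 := by gcongr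
    linarith
  · have hexp2 : Real.exp ((((v4 + v2 : ℕ) : ℝ) + 1) / p.h) =
        Real.exp ((v4 : ℝ) / p.h) * Real.exp ((v2 : ℝ) / p.h) * Real.exp (1 / p.h) := by
      rw [← Real.exp_add, ← Real.exp_add]
      congr 1
      push_cast
      ring
    rw [hexp2]
    have a1 : Real.exp ((v4 : ℝ) / p.h) * Real.exp ((v2 : ℝ) / p.h) * Real.exp (1 / p.h) ≤
        (2 * p.M4) * (2 * p.M2) * Real.exp (2 / p.h) := by
      gcongr
      norm_num
    linarith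

end core

/-- all fields, under explicit bounds -/
lemma core {p : Par} {U : Finset Ix} {b : ℕ} {y : Gi} {Q : ℝ} (N1 : 1000000 ≤ p.N)
    (l1 : 100 ≤ Real.log p.N) (h1 : 100 ≤ p.h) (h2 : p.h ^ 2 ≤ p.N / 10) (w1 : 1 ≤ p.w)
    (P1 : 100 ≤ p.P) (T1 : 1000 * p.P ≤ p.T) (b1 : 1 ≤ b) (b2 : (b : ℝ) ^ 2 ≤ 8 * p.N)
    (hw : p.w ≤ p.P) (hQ : Q ≤ p.P) (hQ2 : Q ^ 2 ≤ p.w) (hQ0 : 0 ≤ Q) (hy : prim y)
    (hyP : (nm y : ℝ) ≤ p.P) (hU : ∀ i ∈ U, 1 ≤ i.1 ∧ (i.1 : ℝ) ≤ Q)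
    (hr : ∀ π : Gi, Prime π → π ∣ y → p.w < (nm π : ℝ))
    (hTy : p.T * nm y ≤ p.N ^ (1 / 10 : ℝ)) (hP2 : 2 * p.P ≤ p.N ^ (9 / 10 : ℝ))
    (hMl : p.N ^ (35 / 100 : ℝ) ≤ p.M) (hMu : p.M ≤ p.N ^ (45 / 100 : ℝ)) :
    Siz p U b y := by
  have hN0 : 0 < p.N := by linarith
  have hN1 : 1 ≤ p.N := by linarith
  have hP0 : 0 < p.P := by linarith
  have hT0 : 0 < p.T := by linarith
  have hh0 : 0 < p.h := by linarith
  have hny : 1 ≤ nm y := nm_pos (prim_ne_zero hy)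
  have hnyR : (1 : ℝ) ≤ nm y := by exact_mod_cast hny
  have hTT : p.T ≤ p.N ^ (1 / 10 : ℝ) := by nlinarith
  have hpow : p.N ^ (9 / 10 : ℝ) * p.N ^ (1 / 10 : ℝ) = p.N := by
    rw [← Real.rpow_add hN0]
    norm_num
  have h90 : 0 < p.N ^ (9 / 10 : ℝ) := Real.rpow_pos_of_pos hN0 _
  have K1 : p.N ^ (9 / 10 : ℝ) ≤ p.K / nm y := by
    unfold Par.K
    rw [div_div, le_div_iff₀ (by positivity)]
    calc p.N ^ (9 / 10 : ℝ) * (p.T * nm y) ≤ p.N ^ (9 / 10 : ℝ) * p.N ^ (1 / 10 : ℝ) := by gcongr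
      _ = p.N := hpow
  have K2 : p.K / nm y ≤ p.N := by
    unfold Par.K
    rw [div_div]
    refine div_le_self hN0.le ?_
    nlinarith
  have hs0 : 0 < Real.sqrt p.N := Real.sqrt_pos.2 hN0
  have hss : Real.sqrt p.N * Real.sqrt p.N = p.N := Real.mul_self_sqrt hN0.le
  have hs1 : 1000 ≤ Real.sqrt p.N := by
    refine Real.le_sqrt_of_sq_le ?_
    linarith
  have hsq : p.N ^ (1 / 3 : ℝ) ≤ Real.sqrt p.N := by
    rw [Real.sqrt_eq_rpow]
    exact Real.rpow_le_rpow_of_exponent_le hN1 (by norm_num)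
  have hM4 : p.M4 = p.M := rfl
  have hMs : p.M ≤ Real.sqrt p.N := by
    rw [Real.sqrt_eq_rpow]
    exact hMu.trans (Real.rpow_le_rpow_of_exponent_le hN1 (by norm_num))
  have M41 : p.N ^ (1 / 3 : ℝ) ≤ p.M4 := by
    rw [hM4]
    exact (Real.rpow_le_rpow_of_exponent_le hN1 (by norm_num)).trans hMl
  have hT4 : p.T ≤ p.M4 := by
    rw [hM4]
    exact (hTT.trans (Real.rpow_le_rpow_of_exponent_le hN1 (by norm_num))).trans hMl
  have hM40 : 0 < p.M4 := by linarith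
  have hM40' : 0 < p.M := hM40
  have M42 : 2 * p.M4 ≤ p.N := by
    rw [hM4]
    nlinarith
  have hM2 : Real.sqrt p.N ≤ p.M2 := by
    unfold Par.M2
    rw [le_div_iff₀ (by positivity)]
    have h3 : Real.sqrt p.N * p.M ≤ p.N := by
      calc Real.sqrt p.N * p.M ≤ Real.sqrt p.N * Real.sqrt p.N := by gcongr
        _ = p.N := hss
    have h4 : 16 * p.P ≤ p.T := by linarith
    calc Real.sqrt p.N * (16 * p.P * p.M) = (Real.sqrt p.N * p.M) * (16 * p.P) := by ring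
      _ ≤ p.N * p.T := by gcongr
  have M21 : p.N ^ (1 / 3 : ℝ) ≤ p.M2 := hsq.trans hM2
  have M22 : 2 * p.M2 ≤ p.N := by
    unfold Par.M2
    rw [mul_div_assoc', div_le_iff₀ (by positivity)]
    have h3 : p.T ≤ p.M := hT4
    have h4 : 2 * (p.N * p.T) ≤ 2 * (p.N * p.M) := by gcongr
    have h5 : 2 * (p.N * p.M) ≤ p.N * (16 * p.P * p.M) := by
      have h6 : 2 ≤ 16 * p.P := by linarith
      have h7 : 0 ≤ p.N * p.M := by positivity
      calc 2 * (p.N * p.M) ≤ (16 * p.P) * (p.N * p.M) := mul_le_mul_of_nonneg_right h6 h7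
        _ = _ := by ring
    linarith
  have nT : 4 * p.M4 * p.M2 * Real.exp (2 / p.h) ≤ p.N * p.T := by
    have h3 := exp_hi h1
    have h4 := mm_core hP0 hM40
    have h5 : 4 * p.M4 * p.M2 * Real.exp (2 / p.h) ≤ 4 * (p.M4 * p.M2) * 3 := by
      have h6 : 0 ≤ 4 * (p.M4 * p.M2) := by
        rw [h4]; positivity
      calc 4 * p.M4 * p.M2 * Real.exp (2 / p.h) = 4 * (p.M4 * p.M2) * Real.exp (2 / p.h) := by ring
        _ ≤ _ := mul_le_mul_of_nonneg_left h3 h6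
    refine h5.trans ?_
    rw [h4]
    have h6 : 4 * (p.N * p.T / (16 * p.P)) * 3 = p.N * p.T * (12 / (16 * p.P)) := by ring
    rw [h6]
    have h7 : 12 / (16 * p.P) ≤ 1 := by
      rw [div_le_one (by positivity)]; linarith
    have h8 : 0 ≤ p.N * p.T := by positivity
    calc p.N * p.T * (12 / (16 * p.P)) ≤ p.N * p.T * 1 := mul_le_mul_of_nonneg_left h7 h8
      _ = _ := mul_one _
  have hKp : 2 * p.P ≤ p.K / nm y := hP2.trans K1
  have hK1 : 1 ≤ p.K / nm y := by linarith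
  have hM41 : 1 ≤ p.M4 := by linarith
  have hM21 : 1 ≤ p.M2 := by linarith
  exact
    { N1 := N1
      l1 := l1
      h1 := h1
      h2 := h2
      w1 := w1
      P1 := P1
      T1 := T1
      b1 := b1
      b2 := b2
      ny := hny
      K1 := K1
      K2 := K2
      M41 := M41
      M42 := M42
      M21 := M21
      M22 := M22
      nT := nT
      prod := prod_core hT0 hP0 hM40
      om := fun π hπ z hz => om_core hw hQ hQ2 hQ0 hy hyP hKp hU hr hπ hz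
      ce := fun z hz => ce_core hh0 hK1 hz
      ra := fun π hπ u hu v4 hv4 v2 hv2 =>
        ra_core h1 hN0 hP0 hT0 hny hK1 hM41 hM21 hπ hu hv4 hv2
      jj := fun v4 hv4 v2 hv2 => jj_core h1 hN0 hP0 T1 hM41 hM21 nT hv4 hv2
      c1 := vv_card h1 hK1
      c4 := vv_card h1 hM41
      c2 := vv_card h1 hM21 }

end SIZM

open SIZM in
/-- SIZ -/
theorem specSIZ : SpecSIZ := by
  intro cw aU aQ aF hcw1 hcw haU haQ haF
  refine ⟨1, 1 / 100, by norm_num, fun ch hch δ hδ hδ2 => ⟨max (2 * cw) (2 * aQ) + 2,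
    fun cP hcP => ⟨1, fun cT hcT => ⟨1, fun cB hcB => ?_⟩⟩⟩⟩
  have hcP1 : 2 * cw + 2 ≤ cP := le_trans (by linarith [le_max_left (2 * cw) (2 * aQ)]) hcP
  have hcP2 : 2 * aQ + 2 ≤ cP := le_trans (by linarith [le_max_right (2 * cw) (2 * aQ)]) hcP
  have e1 := Real.tendsto_log_atTop.eventually_ge_atTop 1000
  have e2 := ev_pow (ch * 2) 1 (1 / 10) one_pos (by norm_num)
  have e3 := ev_pow (cP / 2) (9 / 100) 1 (by norm_num) one_pos
  have e4 := ev_pow (2 * cP) (9 / 10) (1 / 2) (by norm_num) (by norm_num)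
  filter_upwards [e1, e2, e3, e4, eventually_ge_atTop 1000000] with N h1 h2 h3 h4 h5
  intro T P M B U b y hc
  set L : ℝ := Real.log N with hL
  have hL1 : 1 ≤ L := by linarith
  have hL0 : 0 < L := by linarith
  have hN0 : 0 < N := by linarith
  have hN1 : 1 ≤ N := by linarith
  have mono : ∀ {s t : ℝ}, s ≤ t → L ^ s ≤ L ^ t := fun hst =>
    Real.rpow_le_rpow_of_exponent_le hL1 hst
  have hLL : ∀ {s : ℝ}, 1 ≤ s → L ≤ L ^ s := fun {s} hs => by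
    calc L = L ^ (1 : ℝ) := (Real.rpow_one L).symm
      _ ≤ L ^ s := mono hs
  have bP1 : L ^ cP ≤ P := hc.box.P1
  have bP2 : P ≤ L ^ (2 * cP) := hc.box.P2
  have bT1 : P * L ^ cT ≤ T := hc.box.T1
  have bT2 : T ≤ N ^ δ := hc.box.T2
  have bB1 : T * P * L ^ cB ≤ B := hc.box.B1
  have hP1000 : 1000 ≤ P := by
    have := hLL (show 1 ≤ cP by linarith)
    linarith
  have hT1000 : 1000 * P ≤ T := by
    have h6 := hLL hcT
    calc 1000 * P ≤ P * L ^ cT := by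
          rw [mul_comm]
          exact mul_le_mul_of_nonneg_left (by linarith) (by linarith)
      _ ≤ T := bT1
  have hB1 : 1 ≤ B := by
    have h6 := hLL hcB
    have h7 : 1 ≤ T * P := by nlinarith
    have h8 : 1 ≤ T * P * L ^ cB := by
      calc (1 : ℝ) ≤ T * P * 1 := by linarith
        _ ≤ T * P * L ^ cB := mul_le_mul_of_nonneg_left (by linarith) (by linarith)
    linarith
  have hbB := hc.b1
  have hb1 : 1 ≤ b := by
    have h6 : (0 : ℝ) < b := by linarith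
    have h7 : 0 < b := by exact_mod_cast h6
    omega
  refine core (Q := L ^ aQ) h5 (by show 100 ≤ Real.log N; linarith) ?_ ?_ ?_ ?_ ?_ hb1 ?_ ?_ ?_ ?_ ?_
    hc.y1 ?_ ?_ ?_ ?_ ?_ hc.box.M1 hc.box.M2
  · show 100 ≤ L ^ ch
    have := hLL hch
    linarith
  · show (L ^ ch) ^ 2 ≤ N / 10
    rw [Real.rpow_one] at h2
    have h6 : (L ^ ch) ^ 2 = L ^ (ch * 2) := by
      rw [← Real.rpow_natCast, ← Real.rpow_mul hL0.le]
      norm_num
    rw [h6]
    linarith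
  · show 1 ≤ L ^ cw
    exact Real.one_le_rpow hL1 (by linarith)
  · show 100 ≤ P
    linarith
  · show 1000 * P ≤ T
    exact hT1000
  · show (b : ℝ) ^ 2 ≤ 8 * N
    have h6 := hc.b2
    have h7 := hc.box.B2
    have h8 : (0 : ℝ) ≤ b := Nat.cast_nonneg b
    nlinarith
  · show L ^ cw ≤ P
    exact (mono (by linarith)).trans bP1
  · show L ^ aQ ≤ P
    exact (mono (by linarith)).trans bP1
  · show (L ^ aQ) ^ 2 ≤ L ^ cw
    rw [← Real.rpow_natCast, ← Real.rpow_mul hL0.le]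
    refine mono ?_
    push_cast
    linarith
  · exact Real.rpow_nonneg hL0.le _
  · show (nm y : ℝ) ≤ P
    exact (hc.y2.trans (mono (by linarith))).trans bP1
  · intro i hi
    exact ⟨(hc.ok.ch i hi).1, (hc.ok.ch i hi).2.1⟩
  · intro π hπ hd
    exact (hc.y3 π hπ hd).1
  · show T * nm y ≤ N ^ (1 / 10 : ℝ)
    have h6 : (nm y : ℝ) ≤ N ^ (9 / 100 : ℝ) := by
      have h7 := hc.y2
      rw [one_mul] at h3
      exact h7.trans h3
    have h8 : T ≤ N ^ (1 / 100 : ℝ) :=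
      bT2.trans (Real.rpow_le_rpow_of_exponent_le hN1 hδ2)
    calc T * nm y ≤ N ^ (1 / 100 : ℝ) * N ^ (9 / 100 : ℝ) :=
          mul_le_mul h8 h6 (Nat.cast_nonneg _) (Real.rpow_nonneg hN0.le _)
      _ = N ^ (1 / 10 : ℝ) := by
          rw [← Real.rpow_add hN0]
          norm_num
  · show 2 * P ≤ N ^ (9 / 10 : ℝ)
    linarith

end Pool.Agent.Lib.MP391708.XPM
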