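import Pool.Agent.Lib.MP_391708_nt.XP.SpecMT

set_option autoImplicit false

namespace Pool.Agent.Lib.MP391708.XPM

open Finset Filter Topology Pool.Agent.Lib.MP391708.MR
open Pool.Agent.Lib.MP391708.X (ChiG hk Dist Fam rgh VP Ix psi ix1 UOK lc On)
open Pool.Agent.Lib.MP391708.XP
open Pool.Agent.Lib.MP391708.XL (gg VQ VS PS)

namespace XXLM

theorem ev_cnt {c : ℝ}
    (hC : ∀ᶠ X : ℝ in atTop, c * X / Real.log X ≤ ((GP X (2 * X)).card : ℝ)) :
    EV (fun p _ _ _ _ => c * p.P / Real.log p.P ≤ ((GP p.P (2 * p.P)).card : ℝ)) := by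
  obtain ⟨X0, hX0⟩ := eventually_atTop.1 hC
  intro cw aU aQ aF _ _ _ _ _
  refine ⟨0, 1, one_pos, fun ch _ δ _ _ => ⟨1, fun cP hcP => ⟨0, fun cT _ => ⟨0, fun cB _ => ?_⟩⟩⟩⟩
  have hcP0 : 0 < cP := by linarith
  have e2 := ((tendsto_rpow_atTop hcP0).comp Real.tendsto_log_atTop).eventually
    (eventually_ge_atTop X0)
  filter_upwards [e2] with N hN T P M B U b y hc
  exact hX0 P (le_trans hN hc.box.P1)

/-- the inequality in one context -/
theorem one {N l n V VP' c cd K M4 M2 P LP : ℝ} (hc : 0 < c)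
    (hN : 0 < N) (hl : 0 < l) (hn : 0 < n) (hV : 0 < V) (hVP : 0 < VP')
    (hcd : c * P / LP ≤ cd) (hP : 0 < P) (hLP : 0 < LP) (hK : 0 < K) (hM4 : 0 < M4)
    (hM2 : 0 < M2) (hprod : 16 * K * P * M4 * M2 = N ^ 2) :
    c / 16 * (V / VP') * (N / (l ^ 3 * LP * n)) ≤ V / VP' * cd * (K / n * M4 * M2 / (N * l ^ 3)) ∧
      0 ≤ V / VP' * cd * (K / n * M4 * M2 / (N * l ^ 3)) := by
  have h0 : 0 < V / VP' := by positivity
  have hZ : 0 < K / n * M4 * M2 / (N * l ^ 3) := by positivity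
  have hcd0 : 0 ≤ cd := le_trans (by positivity) hcd
  refine ⟨?_, by positivity⟩
  have h4 : V / VP' * (c * P / LP) * (K / n * M4 * M2 / (N * l ^ 3)) ≤
      V / VP' * cd * (K / n * M4 * M2 / (N * l ^ 3)) := by gcongr
  refine le_trans (le_of_eq ?_) h4
  have h5 : V / VP' * (c * P / LP) * (K / n * M4 * M2 / (N * l ^ 3)) =
      V / VP' * c * (16 * K * P * M4 * M2) / (16 * LP * n * N * l ^ 3) := by
    field_simp
  rw [h5, hprod]
  field_simp

end XXLM

theorem specXXL (hC : SpecCNT) (hS : SpecSIZ) (hR : SpecRRA)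
    (hL : Pool.Agent.Lib.MP391708.XL.SpecLSM) : SpecXXL := by
  obtain ⟨c, hc, hCe⟩ := hC
  obtain ⟨_, _, _, _, _, c', hc', hE⟩ := hL
  refine ⟨c / 16, by positivity, ?_⟩
  have h1 := XXLM.ev_cnt hCe
  refine ((h1.and hS).and (hR 1 one_pos)).mono ?_
  rintro p B U b y ⟨⟨hcd, hs⟩, hVP, _, _⟩
  obtain ⟨_, hV2, _⟩ := hE b p.w hs.w1
  have hP1 := hs.P1
  have hlP : 0 < Real.log p.P := Real.log_pos (by linarith)
  have hN1 := hs.N1
  have hl1 := hs.l1
  have hny : (0 : ℝ) < nm y := by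
    have := hs.ny
    exact_mod_cast this
  have hN0 : 0 < p.N := by linarith
  have hK0 : 0 < p.K := by
    have h2 : 0 < p.K / nm y := lt_of_lt_of_le (by positivity) hs.K1
    by_contra h3
    push Not at h3
    exact absurd (div_nonpos_of_nonpos_of_nonneg h3 hny.le) (not_le.2 h2)
  have hM4 : 0 < p.M4 := lt_of_lt_of_le (by positivity) hs.M41
  have hM2 : 0 < p.M2 := lt_of_lt_of_le (by positivity) hs.M21
  exact XXLM.one hc hN0 (by linarith) hny hV2 hVP hcd (by linarith) hlP hK0 hM4 hM2 hs.prod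

end Pool.Agent.Lib.MP391708.XPM
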