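import Pool.Agent.Lib.MP_391708_nt.XP.SpecMT

/-!
# THEOREM X+ (MP_391708), part MT, module FRQ: the phase is nearly constant on a cell

Copy of `X/MT/FRQ.lean` for the boxes of `XP/Defs.lean`.
-/

set_option autoImplicit false

namespace Pool.Agent.Lib.MP391708.XPM

open Finset Filter Topology Pool.Agent.Lib.MP391708.MR
open Pool.Agent.Lib.MP391708.X (ChiG hk Dist Fam rgh VP Ix psi ix1 UOK lc On)
open Pool.Agent.Lib.MP391708.XP
open Pool.Agent.Lib.MP391708.XL (gg VQ VS PS)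
open scoped ComplexConjugate

theorem specFRQ : SpecFRQ := by
  intro δ hδ cw aU aQ aF _ _ _ _ haF
  refine ⟨aF + 1, 1, one_pos, fun ch hch δ' _ _ => ⟨0, fun cP _ => ⟨0, fun cT _ => ⟨0, fun cB _ => ?_⟩⟩⟩⟩
  have h1 : ∀ᶠ N : ℝ in atTop, max 1 (2 / δ) ≤ Real.log N :=
    Real.tendsto_log_atTop.eventually_ge_atTop _
  have h2 : ∀ᶠ N : ℝ in atTop, 16 * Real.log N ^ aF ≤ δ * N := by
    have h := (isLittleO_log_rpow_rpow_atTop aF (by norm_num : (0 : ℝ) < 1)).bound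
      (by positivity : (0 : ℝ) < δ / 16)
    filter_upwards [h, eventually_gt_atTop 0] with N hN hN0
    rw [Real.norm_eq_abs, Real.norm_eq_abs, Real.rpow_one, abs_of_pos hN0] at hN
    have := le_abs_self (Real.log N ^ aF)
    linarith
  filter_upwards [h1, h2, eventually_gt_atTop 0] with N hN1 hN2 hN0 T P M B U b y hc i hi
  set l : ℝ := Real.log N with hl
  have hl1 : 1 ≤ l := le_trans (le_max_left _ _) hN1
  have hl2 : 2 / δ ≤ l := le_trans (le_max_right _ _) hN1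
  have hl0 : 0 < l := by linarith
  have hP0 : 0 < P := lt_of_lt_of_le (Real.rpow_pos_of_pos hl0 _) hc.box.P1
  have hT0 : 0 < T := lt_of_lt_of_le (mul_pos hP0 (Real.rpow_pos_of_pos hl0 _)) hc.box.T1
  have hB0 : 0 < B := lt_of_lt_of_le (mul_pos (mul_pos hT0 hP0) (Real.rpow_pos_of_pos hl0 _)) hc.box.B1
  have hB2 : B ^ 2 ≤ 2 * N := hc.box.B2
  have hk := hc.ok.frq i hi
  have hb0 : (0 : ℝ) ≤ b := Nat.cast_nonneg b
  have hlF : 0 < l ^ aF := Real.rpow_pos_of_pos hl0 _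
  have hk0 : 0 ≤ l ^ aF * (N / B) := by positivity
  show |(i.2.2 : ℝ)| * b ≤ δ * l ^ ch * N ∧ |(i.2.2 : ℝ)| * (b : ℝ) ^ 3 ≤ δ * N ^ 3
  constructor
  · have h3 : |(i.2.2 : ℝ)| * b ≤ (l ^ aF * (N / B)) * (2 * B) :=
      mul_le_mul hk hc.b2 hb0 hk0
    have h4 : (l ^ aF * (N / B)) * (2 * B) = 2 * l ^ aF * N := by
      field_simp
    have h5 : 2 * l ^ aF ≤ δ * l ^ ch := by
      have h6 : l ^ (aF + 1) ≤ l ^ ch := Real.rpow_le_rpow_of_exponent_le hl1 hch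
      rw [Real.rpow_add hl0, Real.rpow_one] at h6
      have h7 : 2 ≤ δ * l := by
        rw [div_le_iff₀ hδ] at hl2
        linarith
      calc 2 * l ^ aF ≤ (δ * l) * l ^ aF := mul_le_mul_of_nonneg_right h7 hlF.le
        _ = δ * (l ^ aF * l) := by ring
        _ ≤ δ * l ^ ch := mul_le_mul_of_nonneg_left h6 hδ.le
    rw [h4] at h3
    exact h3.trans (mul_le_mul_of_nonneg_right h5 hN0.le)
  · have h3 : |(i.2.2 : ℝ)| * (b : ℝ) ^ 3 ≤ (l ^ aF * (N / B)) * (2 * B) ^ 3 :=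
      mul_le_mul hk (pow_le_pow_left₀ hb0 hc.b2 3) (by positivity) hk0
    have h4 : (l ^ aF * (N / B)) * (2 * B) ^ 3 = 8 * l ^ aF * N * B ^ 2 := by
      field_simp
      ring
    have h5 : 8 * l ^ aF * N * B ^ 2 ≤ 8 * l ^ aF * N * (2 * N) :=
      mul_le_mul_of_nonneg_left hB2 (by positivity)
    have h6 : 8 * l ^ aF * N * (2 * N) = (16 * l ^ aF) * N ^ 2 := by ring
    have h7 : (16 * l ^ aF) * N ^ 2 ≤ (δ * N) * N ^ 2 :=
      mul_le_mul_of_nonneg_right hN2 (by positivity)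
    have h8 : (δ * N) * N ^ 2 = δ * N ^ 3 := by ring
    linarith

end Pool.Agent.Lib.MP391708.XPM
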